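import Mathlib

/-!
Definitions for the problem of the tip preimage of slit maps with slit in a sector.
-/

set_option autoImplicit false

open Complex Metric Set Filter Topology

namespace Pool.Agent.Work.MP_2e7b1e_an

/-- The class `S`: `f` is analytic and injective on the open unit disc, `f 0 = 0`, `f' 0 = 1`. -/
def ClassS (f : ℂ → ℂ) : Prop :=
  DifferentiableOn ℂ f (ball 0 1) ∧ InjOn f (ball 0 1) ∧ f 0 = 0 ∧ deriv f 0 = 1

/-- Near the parameter `t`, on the side `s` of `t`, the curve `γ` coincides with a real analytic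
curve with nonzero velocity at `t`. -/
def RegularAnalyticWithin (γ : ℝ → ℂ) (s : Set ℝ) (t : ℝ) : Prop :=
  ∃ g : ℝ → ℂ, AnalyticAt ℝ g t ∧ deriv g t ≠ 0 ∧ ∀ᶠ x in 𝓝[s] t, γ x = g x

/-- `Γ` is a piecewise analytic Jordan arc from the finite point `ω₀` to `∞`: it is the image of a
continuous injective `γ : [0, 1) → ℂ` with `γ 0 = ω₀` and `γ t → ∞` as `t → 1`, which is made of
finitely many regular analytic pieces, each analytic up to and including its end points (for the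
end point `∞` this is read in the local coordinate `1 / ω` of the Riemann sphere). -/
def IsSlit (Γ : Set ℂ) (ω₀ : ℂ) : Prop :=
  ∃ γ : ℝ → ℂ,
    ContinuousOn γ (Ico 0 1) ∧ InjOn γ (Ico 0 1) ∧ γ '' Ico 0 1 = Γ ∧ γ 0 = ω₀ ∧
    Tendsto (fun t => ‖γ t‖) (𝓝[<] 1) atTop ∧
    (∀ t ∈ Ico (0 : ℝ) 1, RegularAnalyticWithin γ (Ici t) t) ∧
    (∀ t ∈ Ioo (0 : ℝ) 1, RegularAnalyticWithin γ (Iic t) t) ∧
    {t : ℝ | t ∈ Ioo (0 : ℝ) 1 ∧ ¬ RegularAnalyticWithin γ univ t}.Finite ∧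
    RegularAnalyticWithin (fun t => (γ t)⁻¹) (Iio 1) 1

/-- `Γ` lies in the closed infinite sector with vertex `ω₀` whose directions from `ω₀` are the
`e^{is}` with `s ∈ [θ₀, θ₁]`. -/
def InSector (Γ : Set ℂ) (ω₀ : ℂ) (θ₀ θ₁ : ℝ) : Prop :=
  ∀ ω ∈ Γ, ω ≠ ω₀ → ∃ r : ℝ, 0 < r ∧ ∃ s ∈ Icc θ₀ θ₁, ω - ω₀ = (r : ℂ) * exp ((s : ℂ) * I)

/-- `f ∈ Σ_α`, and the tip of the slit `Γ = ℂ ∖ f(𝔻)` is `ω₀`. -/
def InSigma (α : ℝ) (f : ℂ → ℂ) (ω₀ : ℂ) : Prop :=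
  ClassS f ∧ IsSlit (f '' ball 0 1)ᶜ ω₀ ∧
    ∃ θ₀ : ℝ, InSector (f '' ball 0 1)ᶜ ω₀ θ₀ (θ₀ + α * Real.pi)

/-- `f` extends to a continuous map `F` from the closed unit disc to the Riemann sphere; on the
unit circle `-1` is the one and only point sent to `∞`, and `e^{iφ}` is the one and only point sent
to `ω₀`. -/
def TipAt (f : ℂ → ℂ) (ω₀ : ℂ) (φ : ℝ) : Prop :=
  ∃ F : ℂ → OnePoint ℂ, ContinuousOn F (closedBall 0 1) ∧
    (∀ z ∈ ball (0 : ℂ) 1, F z = (f z : OnePoint ℂ)) ∧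
    (∀ z ∈ sphere (0 : ℂ) 1, F z = OnePoint.infty ↔ z = -1) ∧
    (∀ z ∈ sphere (0 : ℂ) 1, F z = (ω₀ : OnePoint ℂ) ↔ z = exp ((φ : ℂ) * I))

/-- The set of all values `φ_f ∈ (-π, π)`, `f ∈ Σ_α`, `f(-1) = ∞`. -/
def tipArguments (α : ℝ) : Set ℝ :=
  {φ | φ ∈ Ioo (-Real.pi) Real.pi ∧ ∃ (f : ℂ → ℂ) (ω₀ : ℂ), InSigma α f ω₀ ∧ TipAt f ω₀ φ}

/-- The quantity `Φ(α) = sup |φ_f|`. -/
noncomputable def Phi (α : ℝ) : ℝ := sSup ((fun φ => |φ|) '' tipArguments α)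

end Pool.Agent.Work.MP_2e7b1e_an
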