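import Mathlib
import Pool.Agent.Work.MP_2e7b1e_an.Defs

/-!
Explicit slit maps whose omitted set is a straight half line.
-/

set_option autoImplicit false

open Complex Metric Set Filter Topology

namespace Pool.Agent.Work.MP_2e7b1e_an

noncomputable section

/-- The half plane coordinate. -/
def zeta (z : ℂ) : ℂ := (1 - z) / (1 + z)

/-- The constant `1 - i τ`. -/
def cc (τ : ℝ) : ℂ := 1 - (τ : ℂ) * I

/-- The map onto the complement of a half line with tip `(1 - i τ) / 4`. -/
def rayMap (τ : ℝ) (z : ℂ) : ℂ := cc τ / 4 - (zeta z - (τ : ℂ) * I) ^ 2 / (4 * cc τ)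

lemma cc_ne (τ : ℝ) : cc τ ≠ 0 := by
  intro h
  have := congrArg Complex.re h
  simp [cc] at this

lemma one_add_ne {z : ℂ} (hz : z ∈ ball (0 : ℂ) 1) : 1 + z ≠ 0 := by
  intro h
  have h1 : z = -1 := by linear_combination h
  rw [h1] at hz
  simp at hz

lemma zeta_re (z : ℂ) : (zeta z).re = (1 - normSq z) / normSq (1 + z) := by
  unfold zeta
  rw [Complex.div_re]
  rw [← add_div]
  congr 1
  simp [normSq_apply]
  ring

lemma zeta_re_pos {z : ℂ} (hz : z ∈ ball (0 : ℂ) 1) : 0 < (zeta z).re := by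
  rw [zeta_re]
  apply div_pos
  · have : normSq z < 1 := by
      rw [normSq_eq_norm_sq]
      have : ‖z‖ < 1 := by simpa using hz
      nlinarith [norm_nonneg z]
    linarith
  · exact normSq_pos.mpr (one_add_ne hz)

lemma zeta_re_zero {z : ℂ} (hz : z ∈ sphere (0 : ℂ) 1) : (zeta z).re = 0 := by
  rw [zeta_re]
  have : normSq z = 1 := by
    rw [normSq_eq_norm_sq]
    have : ‖z‖ = 1 := by simpa using hz
    rw [this]; norm_num
  rw [this]; simp

lemma one_add_zeta {z : ℂ} (hz : 1 + z ≠ 0) : 1 + zeta z ≠ 0 := by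
  unfold zeta
  intro h
  have : (1 + z) + (1 - z) = 0 := by
    field_simp at h
    linear_combination h
  have h2 : (2 : ℂ) = 0 := by linear_combination this
  norm_num at h2

lemma zeta_zeta {z : ℂ} (hz : 1 + z ≠ 0) : zeta (zeta z) = z := by
  have h := one_add_zeta hz
  unfold zeta at h ⊢
  field_simp at h ⊢
  ring

lemma zeta_inj {z w : ℂ} (hz : 1 + z ≠ 0) (hw : 1 + w ≠ 0) (h : zeta z = zeta w) : z = w := by
  rw [← zeta_zeta hz, ← zeta_zeta hw, h]

lemma zeta_mem_ball {w : ℂ} (hw : 0 < w.re) : zeta w ∈ ball (0 : ℂ) 1 := by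
  have h1 : (1 : ℂ) + w ≠ 0 := by
    intro h
    have := congrArg Complex.re h
    simp at this
    linarith
  simp only [mem_ball, dist_zero_right]
  unfold zeta
  rw [norm_div, div_lt_one (norm_pos_iff.mpr h1)]
  rw [← sq_lt_sq₀ (norm_nonneg _) (norm_nonneg _), ← normSq_eq_norm_sq, ← normSq_eq_norm_sq]
  simp [normSq_apply]
  nlinarith

lemma zeta_differentiableAt {z : ℂ} (hz : 1 + z ≠ 0) : DifferentiableAt ℂ zeta z := by
  unfold zeta
  fun_prop (disch := assumption)

lemma rayMap_differentiableAt (τ : ℝ) {z : ℂ} (hz : 1 + z ≠ 0) :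
    DifferentiableAt ℂ (rayMap τ) z := by
  have := zeta_differentiableAt hz
  unfold rayMap
  fun_prop

lemma rayMap_zero (τ : ℝ) : rayMap τ 0 = 0 := by
  have h := cc_ne τ
  unfold rayMap
  have : zeta 0 - (τ : ℂ) * I = cc τ := by simp [zeta, cc]
  rw [this]
  field_simp
  ring

lemma zeta_hasDerivAt_zero : HasDerivAt zeta (-2) 0 := by
  have h : HasDerivAt (fun z : ℂ => (1 - z) / (1 + z)) (((-1) * (1 + 0) - (1 - 0) * 1) / (1 + 0) ^ 2)
      0 := by
    apply HasDerivAt.div
    · simpa using (hasDerivAt_id (0 : ℂ)).const_sub 1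
    · simpa using (hasDerivAt_id (0 : ℂ)).const_add 1
    · simp
  have h2 : (((-1) * (1 + 0) - (1 - 0) * 1) / (1 + 0) ^ 2 : ℂ) = -2 := by norm_num
  rw [h2] at h
  exact h

lemma rayMap_deriv_zero (τ : ℝ) : deriv (rayMap τ) 0 = 1 := by
  have h := cc_ne τ
  have h1 : HasDerivAt (fun z => cc τ / 4 - (zeta z - (τ : ℂ) * I) ^ 2 / (4 * cc τ))
      (-((2 * (zeta 0 - (τ : ℂ) * I) ^ 1 * (-2)) / (4 * cc τ))) 0 := by
    apply HasDerivAt.const_sub
    apply HasDerivAt.div_const
    have := (zeta_hasDerivAt_zero.sub_const ((τ : ℂ) * I)).fun_pow 2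
    simpa using this
  have h2 : rayMap τ = (fun z => cc τ / 4 - (zeta z - (τ : ℂ) * I) ^ 2 / (4 * cc τ)) := rfl
  rw [h2, h1.deriv]
  have : zeta 0 - (τ : ℂ) * I = cc τ := by simp [zeta, cc]
  rw [this]
  field_simp
  norm_num

lemma rayMap_injOn (τ : ℝ) : InjOn (rayMap τ) (ball 0 1) := by
  intro z hz w hw h
  have hc := cc_ne τ
  unfold rayMap at h
  have h1 : (zeta z - (τ : ℂ) * I) ^ 2 = (zeta w - (τ : ℂ) * I) ^ 2 := by
    field_simp at h
    linear_combination -h
  have h2 : (zeta z - zeta w) * (zeta z + zeta w - 2 * τ * I) = 0 := by linear_combination h1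
  rcases mul_eq_zero.mp h2 with h3 | h3
  · exact zeta_inj (one_add_ne hz) (one_add_ne hw) (sub_eq_zero.mp h3)
  · exfalso
    have := congrArg Complex.re h3
    simp at this
    have h4 := zeta_re_pos hz
    have h5 := zeta_re_pos hw
    linarith

lemma classS_rayMap (τ : ℝ) : ClassS (rayMap τ) :=
  ⟨fun _ hz => (rayMap_differentiableAt τ (one_add_ne hz)).differentiableWithinAt,
    rayMap_injOn τ, rayMap_zero τ, rayMap_deriv_zero τ⟩

/-- The omitted set of `rayMap τ` is a half line. -/
lemma rayMap_compl (τ : ℝ) :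
    (rayMap τ '' ball 0 1)ᶜ = {ω | ∃ s : ℝ, 0 ≤ s ∧ ω = cc τ / 4 + s / (4 * cc τ)} := by
  have hc := cc_ne τ
  ext ω
  simp only [mem_compl_iff, mem_image, not_exists, not_and, mem_ofPred_eq]
  constructor
  · intro h
    by_contra hcon
    push Not at hcon
    set v : ℂ := -(ω - cc τ / 4) * (4 * cc τ) with hv
    have hv1 : v ∈ slitPlane := by
      by_contra hns
      rw [mem_slitPlane_iff] at hns
      push Not at hns
      apply hcon (-v.re) (by linarith [hns.1])
      have : ((-v.re : ℝ) : ℂ) = -v := by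
        apply Complex.ext
        · simp
        · simp [hns.2]
      rw [this, hv]
      field_simp
      ring
    have hv0 : v ≠ 0 := slitPlane_ne_zero hv1
    set w : ℂ := exp (log v / 2) with hw
    have hw2 : w ^ 2 = v := by
      rw [hw, ← exp_nat_mul]
      push_cast
      rw [mul_div_cancel₀ _ (by norm_num : (2 : ℂ) ≠ 0)]
      exact exp_log hv0
    have hwre : 0 < w.re := by
      rw [hw, exp_re]
      apply mul_pos (Real.exp_pos _)
      apply Real.cos_pos_of_mem_Ioo
      have him : (log v / 2).im = v.arg / 2 := by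
        simp [log_im]
      rw [him]
      have h1 := mem_slitPlane_iff_arg.mp hv1
      have h2 := Complex.neg_pi_lt_arg v
      have h3 := Complex.arg_le_pi v
      constructor
      · linarith
      · have : v.arg < Real.pi := lt_of_le_of_ne h3 h1.1
        linarith
    have hre : 0 < (w + (τ : ℂ) * I).re := by simpa using hwre
    have h1w : (1 : ℂ) + (w + (τ : ℂ) * I) ≠ 0 := by
      intro h0
      have := congrArg Complex.re h0
      simp at this
      linarith
    apply h (zeta (w + (τ : ℂ) * I)) (zeta_mem_ball hre)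
    unfold rayMap
    rw [zeta_zeta h1w]
    have : w + (τ : ℂ) * I - (τ : ℂ) * I = w := by ring
    rw [this, hw2, hv]
    field_simp
    ring
  · rintro ⟨s, hs, rfl⟩ z hz h
    unfold rayMap at h
    have h1 : (zeta z - (τ : ℂ) * I) ^ 2 = -(s : ℂ) := by
      field_simp at h
      linear_combination -h
    have h4 := zeta_re_pos hz
    have hre := congrArg Complex.re h1
    have him := congrArg Complex.im h1
    simp [pow_two] at hre him
    have h5 : (zeta z).im - τ = 0 := by
      have : 2 * ((zeta z).re * ((zeta z).im - τ)) = 0 := by linarith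
      have h6 : (zeta z).re * ((zeta z).im - τ) = 0 := by linarith
      rcases mul_eq_zero.mp h6 with h7 | h7
      · linarith
      · exact h7
    rw [h5] at hre
    nlinarith

end

end Pool.Agent.Work.MP_2e7b1e_an
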