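import Mathlib
import Pool.Agent.Work.MP_2e7b1e_an.Defs
import Pool.Agent.Work.MP_2e7b1e_an.Ray

/-!
The half line slit maps belong to all the classes, and the position of the tip.
-/

set_option autoImplicit false

open Complex Metric Set Filter Topology

namespace Pool.Agent.Work.MP_2e7b1e_an

noncomputable section

/-- Parametrisation of the omitted half line. -/
def rayArc (τ : ℝ) (t : ℝ) : ℂ := cc τ / 4 + ((t / (1 - t) : ℝ) : ℂ) / (4 * cc τ)

lemma four_cc_ne (τ : ℝ) : 4 * cc τ ≠ 0 := mul_ne_zero (by norm_num) (cc_ne τ)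

lemma rayArc_analyticAt (τ : ℝ) {t : ℝ} (ht : t ≠ 1) : AnalyticAt ℝ (rayArc τ) t := by
  unfold rayArc
  have h1 : (1 : ℝ) - t ≠ 0 := sub_ne_zero.mpr (Ne.symm ht)
  have h2 : AnalyticAt ℝ (fun t : ℝ => t / (1 - t)) t := by
    apply AnalyticAt.div analyticAt_id
    · exact analyticAt_const.sub analyticAt_id
    · exact h1
  have h3 : AnalyticAt ℝ (fun t : ℝ => ((t / (1 - t) : ℝ) : ℂ)) t :=
    (Complex.ofRealCLM.analyticAt _).comp h2
  exact analyticAt_const.add (h3.div analyticAt_const (four_cc_ne τ))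

lemma rayArc_deriv (τ : ℝ) {t : ℝ} (ht : t ≠ 1) :
    HasDerivAt (rayArc τ) (((1 / (1 - t) ^ 2 : ℝ) : ℂ) / (4 * cc τ)) t := by
  unfold rayArc
  have h1 : (1 : ℝ) - t ≠ 0 := sub_ne_zero.mpr (Ne.symm ht)
  have h2 : HasDerivAt (fun t : ℝ => t / (1 - t)) (1 / (1 - t) ^ 2) t := by
    have := (hasDerivAt_id t).fun_div ((hasDerivAt_id t).const_sub 1) h1
    have h2 : (1 * (1 - id t) - id t * -1) / (1 - id t) ^ 2 = 1 / (1 - t) ^ 2 := by
      simp
    rw [h2] at this
    exact this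
  exact ((h2.ofReal_comp).div_const _).const_add _

lemma rayArc_regular (τ : ℝ) (s : Set ℝ) {t : ℝ} (ht : t ≠ 1) :
    RegularAnalyticWithin (rayArc τ) s t := by
  refine ⟨rayArc τ, rayArc_analyticAt τ ht, ?_, Eventually.of_forall fun _ => rfl⟩
  rw [(rayArc_deriv τ ht).deriv]
  have h1 : (1 : ℝ) - t ≠ 0 := sub_ne_zero.mpr (Ne.symm ht)
  apply div_ne_zero _ (four_cc_ne τ)
  exact_mod_cast (one_div_ne_zero (pow_ne_zero 2 h1))

lemma rayArc_inv_regular (τ : ℝ) :
    RegularAnalyticWithin (fun t => (rayArc τ t)⁻¹) (Iio 1) 1 := by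
  have hc := cc_ne τ
  set D : ℝ → ℂ := fun t => cc τ / 4 * ((1 - t : ℝ) : ℂ) + (t : ℂ) / (4 * cc τ) with hD
  have hD1 : D 1 ≠ 0 := by
    simp [hD, hc]
  have hDan : AnalyticAt ℝ D 1 := by
    have h1 : AnalyticAt ℝ (fun t : ℝ => ((1 - t : ℝ) : ℂ)) 1 :=
      (Complex.ofRealCLM.analyticAt _).comp (analyticAt_const.sub analyticAt_id)
    have h2 : AnalyticAt ℝ (fun t : ℝ => (t : ℂ)) 1 := Complex.ofRealCLM.analyticAt _
    exact (analyticAt_const.mul h1).add (h2.div analyticAt_const (four_cc_ne τ))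
  have hNan : AnalyticAt ℝ (fun t : ℝ => ((1 - t : ℝ) : ℂ)) 1 :=
    (Complex.ofRealCLM.analyticAt _).comp (analyticAt_const.sub analyticAt_id)
  refine ⟨fun t => ((1 - t : ℝ) : ℂ) / D t, hNan.div hDan hD1, ?_, ?_⟩
  · have h1 : HasDerivAt (fun t : ℝ => ((1 - t : ℝ) : ℂ)) (-1) 1 := by
      have : HasDerivAt (fun t : ℝ => 1 - t) (-1) 1 := by
        simpa using (hasDerivAt_id (1 : ℝ)).const_sub 1
      simpa using this.ofReal_comp
    have h2 : HasDerivAt D (deriv D 1) 1 := hDan.differentiableAt.hasDerivAt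
    have h3 := h1.div h2 hD1
    have h4 : (fun t : ℝ => ((1 - t : ℝ) : ℂ) / D t) = (fun t : ℝ => ((1 - t : ℝ) : ℂ)) / D := rfl
    rw [h4, h3.deriv]
    simp [hD1]
  · filter_upwards [self_mem_nhdsWithin] with t ht
    have h1 : (1 : ℝ) - t ≠ 0 := by
      have : t < 1 := ht
      linarith
    have h1' : ((1 - t : ℝ) : ℂ) ≠ 0 := by exact_mod_cast h1
    have h5 : rayArc τ t = D t / ((1 - t : ℝ) : ℂ) := by
      rw [hD]
      unfold rayArc
      rw [Complex.ofReal_div]
      field_simp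
    rw [h5, inv_div]

lemma isSlit_ray (τ : ℝ) : IsSlit (rayMap τ '' ball 0 1)ᶜ (cc τ / 4) := by
  have hc := four_cc_ne τ
  refine ⟨rayArc τ, ?_, ?_, ?_, ?_, ?_, ?_, ?_, ?_, rayArc_inv_regular τ⟩
  · intro t ht
    exact (rayArc_analyticAt τ (ne_of_lt ht.2)).continuousAt.continuousWithinAt
  · intro t ht u hu h
    unfold rayArc at h
    have h1 : (1 : ℝ) - t ≠ 0 := by linarith [ht.2]
    have h2 : (1 : ℝ) - u ≠ 0 := by linarith [hu.2]
    have h3 : ((t / (1 - t) : ℝ) : ℂ) = ((u / (1 - u) : ℝ) : ℂ) := by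
      have h4 := add_left_cancel h
      rwa [div_left_inj' hc] at h4
    have h5 : t / (1 - t) = u / (1 - u) := by exact_mod_cast h3
    field_simp at h5
    linarith
  · rw [rayMap_compl]
    ext ω
    constructor
    · rintro ⟨t, ht, rfl⟩
      refine ⟨t / (1 - t), div_nonneg ht.1 (by linarith [ht.2]), rfl⟩
    · rintro ⟨s, hs, rfl⟩
      refine ⟨s / (1 + s), ⟨by positivity, ?_⟩, ?_⟩
      · rw [div_lt_one (by linarith)]
        linarith
      · unfold rayArc
        have h1 : (1 : ℝ) + s ≠ 0 := by linarith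
        have h2 : s / (1 + s) / (1 - s / (1 + s)) = s := by
          field_simp
          ring
        rw [h2]
  · simp [rayArc]
  · have h0 : 0 < ‖(4 * cc τ)‖⁻¹ := by
      rw [inv_pos]
      exact norm_pos_iff.mpr hc
    have h1 : Tendsto (fun t : ℝ => t / (1 - t)) (𝓝[<] 1) atTop := by
      have h2 : Tendsto (fun t : ℝ => 1 - t) (𝓝[<] 1) (𝓝[>] 0) := by
        have h3 : Tendsto (fun t : ℝ => 1 - t) (𝓝[<] 1) (𝓝 0) := by
          have : Tendsto (fun t : ℝ => 1 - t) (𝓝 1) (𝓝 (1 - 1)) := by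
            exact (continuous_const.sub continuous_id).tendsto 1
          rw [sub_self] at this
          exact this.mono_left nhdsWithin_le_nhds
        apply tendsto_nhdsWithin_of_tendsto_nhds_of_eventually_within _ h3
        filter_upwards [self_mem_nhdsWithin] with t ht
        have : t < 1 := ht
        show 0 < 1 - t
        linarith
      have h4 : Tendsto (fun t : ℝ => (1 - t)⁻¹) (𝓝[<] 1) atTop := tendsto_inv_nhdsGT_zero.comp h2
      have h5 : Tendsto (fun t : ℝ => t) (𝓝[<] 1) (𝓝 1) :=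
        tendsto_id.mono_left nhdsWithin_le_nhds
      have h6 := h5.pos_mul_atTop one_pos h4
      simpa [div_eq_mul_inv] using h6
    have h7 : Tendsto (fun t : ℝ => t / (1 - t) * ‖(4 * cc τ)‖⁻¹ - ‖cc τ / 4‖) (𝓝[<] 1) atTop := by
      apply tendsto_atTop_add_const_right
      exact h1.atTop_mul_const h0
    apply tendsto_atTop_mono _ h7
    intro t
    have h8 : rayArc τ t - cc τ / 4 = ((t / (1 - t) : ℝ) : ℂ) / (4 * cc τ) := by
      unfold rayArc; ring
    have h9 : ‖rayArc τ t - cc τ / 4‖ = |t / (1 - t)| * ‖(4 * cc τ)‖⁻¹ := by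
      rw [h8, norm_div, Complex.norm_real, div_eq_mul_inv, Real.norm_eq_abs]
    have h10 : ‖rayArc τ t - cc τ / 4‖ ≤ ‖rayArc τ t‖ + ‖cc τ / 4‖ := norm_sub_le _ _
    have h11 : t / (1 - t) * ‖(4 * cc τ)‖⁻¹ ≤ |t / (1 - t)| * ‖(4 * cc τ)‖⁻¹ :=
      mul_le_mul_of_nonneg_right (le_abs_self _) h0.le
    linarith
  · intro t ht
    exact rayArc_regular τ _ (ne_of_lt ht.2)
  · intro t ht
    exact rayArc_regular τ _ (ne_of_lt ht.2)
  · have : {t : ℝ | t ∈ Ioo (0 : ℝ) 1 ∧ ¬ RegularAnalyticWithin (rayArc τ) univ t} = ∅ := by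
      ext t
      simp only [mem_ofPred_eq, mem_empty_iff_false, iff_false, not_and, not_not]
      intro ht
      exact rayArc_regular τ _ (ne_of_lt ht.2)
    rw [this]
    exact finite_empty

/-- `1 - i τ` for `τ = - tan (φ / 2)` in polar form. -/
lemma cc_polar {φ : ℝ} (hφ : φ ∈ Ioo (-Real.pi) Real.pi) :
    cc (-Real.tan (φ / 2)) = ((Real.cos (φ / 2))⁻¹ : ℝ) * exp (((φ / 2 : ℝ) : ℂ) * I) := by
  have hcos : 0 < Real.cos (φ / 2) := by
    apply Real.cos_pos_of_mem_Ioo
    constructor <;> linarith [hφ.1, hφ.2]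
  rw [exp_mul_I, ← ofReal_cos, ← ofReal_sin]
  unfold cc
  rw [Real.tan_eq_sin_div_cos]
  apply Complex.ext
  · simp [-ofReal_cos, -ofReal_sin]
    field_simp
  · simp [-ofReal_cos, -ofReal_sin]
    field_simp

lemma four_cc_inv_polar {φ : ℝ} (hφ : φ ∈ Ioo (-Real.pi) Real.pi) :
    (4 * cc (-Real.tan (φ / 2)))⁻¹ =
      ((Real.cos (φ / 2) / 4 : ℝ) : ℂ) * exp (((-(φ / 2) : ℝ) : ℂ) * I) := by
  have hcos : 0 < Real.cos (φ / 2) := by
    apply Real.cos_pos_of_mem_Ioo
    constructor <;> linarith [hφ.1, hφ.2]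
  rw [cc_polar hφ, mul_inv, mul_inv, ← exp_neg]
  push_cast
  have h1 : -((φ : ℂ) / 2 * I) = -((φ : ℂ) / 2) * I := by ring
  rw [h1, inv_inv]
  ring

/-- The preimage of the tip. -/
lemma zeta_tip {φ : ℝ} (hφ : φ ∈ Ioo (-Real.pi) Real.pi) :
    zeta (((-Real.tan (φ / 2) : ℝ) : ℂ) * I) = exp ((φ : ℂ) * I) := by
  have hcos : 0 < Real.cos (φ / 2) := by
    apply Real.cos_pos_of_mem_Ioo
    constructor <;> linarith [hφ.1, hφ.2]
  have hcos' : (Real.cos (φ / 2) : ℂ) ≠ 0 := by exact_mod_cast hcos.ne'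
  unfold zeta
  have h1 : 1 - ((-Real.tan (φ / 2) : ℝ) : ℂ) * I = cc (-Real.tan (φ / 2)) := rfl
  have h2 : 1 + ((-Real.tan (φ / 2) : ℝ) : ℂ) * I = cc (-Real.tan (-φ / 2)) := by
    unfold cc
    rw [neg_div, Real.tan_neg]
    push_cast
    ring
  have hφ' : -φ ∈ Ioo (-Real.pi) Real.pi := ⟨by linarith [hφ.2], by linarith [hφ.1]⟩
  rw [h1, h2, cc_polar hφ, cc_polar hφ', neg_div, Real.cos_neg]
  have h3 : exp ((φ : ℂ) * I) = exp (((φ / 2 : ℝ) : ℂ) * I) * exp (((φ / 2 : ℝ) : ℂ) * I) := by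
    rw [← exp_add]
    congr 1
    push_cast
    ring
  have h4 : exp (((-(φ / 2) : ℝ) : ℂ) * I) = (exp (((φ / 2 : ℝ) : ℂ) * I))⁻¹ := by
    rw [← exp_neg]
    congr 1
    push_cast
    ring
  rw [h3, h4]
  have h5 := exp_ne_zero (((φ / 2 : ℝ) : ℂ) * I)
  have h6 : (((Real.cos (φ / 2))⁻¹ : ℝ) : ℂ) ≠ 0 := by
    exact_mod_cast (inv_ne_zero hcos.ne')
  rw [mul_div_mul_left _ _ h6, div_inv_eq_mul]

lemma tipAt_ray {φ : ℝ} (hφ : φ ∈ Ioo (-Real.pi) Real.pi) :
    TipAt (rayMap (-Real.tan (φ / 2))) (cc (-Real.tan (φ / 2)) / 4) φ := by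
  set τ := -Real.tan (φ / 2) with hτ
  have hc := cc_ne τ
  have hne : ∀ z : ℂ, z ≠ -1 → 1 + z ≠ 0 := by
    intro z hz h
    exact hz (by linear_combination h)
  refine ⟨fun z => if z = -1 then OnePoint.infty else ((rayMap τ z : ℂ) : OnePoint ℂ),
    ?_, ?_, ?_, ?_⟩
  · intro z hz
    by_cases hz1 : z = -1
    · subst hz1
      apply ContinuousAt.continuousWithinAt
      rw [continuousAt_iff_punctured_nhds]
      simp only [if_true]
      have h1 : Tendsto (fun z : ℂ => ‖(1 + z)⁻¹‖) (𝓝[≠] (-1)) atTop := by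
        have h2 : Tendsto (fun z : ℂ => 1 + z) (𝓝[≠] (-1)) (𝓝[≠] 0) := by
          apply tendsto_nhdsWithin_of_tendsto_nhds_of_eventually_within
          · have : Tendsto (fun z : ℂ => 1 + z) (𝓝 (-1)) (𝓝 (1 + (-1))) :=
              (continuous_const.add continuous_id).tendsto _
            rw [add_neg_cancel] at this
            exact this.mono_left nhdsWithin_le_nhds
          · filter_upwards [self_mem_nhdsWithin] with w hw
            exact hne w hw
        exact (tendsto_norm_cobounded_atTop.comp tendsto_inv₀_nhdsNE_zero).comp h2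
      have h3 : Tendsto (fun z : ℂ => ‖1 - z‖) (𝓝[≠] (-1)) (𝓝 2) := by
        have : Tendsto (fun z : ℂ => ‖1 - z‖) (𝓝 (-1)) (𝓝 ‖(1 : ℂ) - (-1)‖) :=
          ((continuous_const.sub continuous_id).norm).tendsto _
        have h4 : ‖(1 : ℂ) - (-1)‖ = 2 := by norm_num
        rw [h4] at this
        exact this.mono_left nhdsWithin_le_nhds
      have h5 : Tendsto (fun z : ℂ => ‖zeta z‖) (𝓝[≠] (-1)) atTop := by
        have := h3.pos_mul_atTop (by norm_num : (0 : ℝ) < 2) h1
        refine this.congr ?_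
        intro z
        rw [← norm_mul]
        rfl
      have h6 : Tendsto (fun z : ℂ => ‖zeta z - (τ : ℂ) * I‖) (𝓝[≠] (-1)) atTop := by
        apply tendsto_atTop_mono _ (tendsto_atTop_add_const_right _ (-‖(τ : ℂ) * I‖) h5)
        intro z
        have := norm_sub_norm_le (zeta z) ((τ : ℂ) * I)
        linarith
      have h7 : Tendsto (fun z : ℂ => ‖rayMap τ z‖) (𝓝[≠] (-1)) atTop := by
        have h8 : Tendsto (fun z : ℂ => ‖zeta z - (τ : ℂ) * I‖ ^ 2 * ‖4 * cc τ‖⁻¹ + (-‖cc τ / 4‖))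
            (𝓝[≠] (-1)) atTop := by
          apply tendsto_atTop_add_const_right
          apply Tendsto.atTop_mul_const
          · rw [inv_pos]; exact norm_pos_iff.mpr (four_cc_ne τ)
          · exact (tendsto_pow_atTop (by norm_num : (2 : ℕ) ≠ 0)).comp h6
        apply tendsto_atTop_mono _ h8
        intro z
        unfold rayMap
        have h9 := norm_sub_norm_le ((zeta z - (τ : ℂ) * I) ^ 2 / (4 * cc τ)) (cc τ / 4)
        rw [norm_sub_rev, norm_div, norm_pow] at h9
        rw [div_eq_mul_inv] at h9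
        linarith
      have h10 : Tendsto (fun z : ℂ => ((rayMap τ z : ℂ) : OnePoint ℂ)) (𝓝[≠] (-1))
          (𝓝 OnePoint.infty) := by
        have h11 : Tendsto (rayMap τ) (𝓝[≠] (-1)) (coclosedCompact ℂ) := by
          rw [coclosedCompact_eq_cocompact, ← Metric.cobounded_eq_cocompact]
          exact tendsto_norm_atTop_iff_cobounded.mp h7
        exact OnePoint.tendsto_coe_infty.comp h11
      refine h10.congr' ?_
      filter_upwards [self_mem_nhdsWithin] with w hw
      have : w ≠ -1 := hw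
      simp [this]
    · apply ContinuousAt.continuousWithinAt
      have h1 : ContinuousAt (fun z => ((rayMap τ z : ℂ) : OnePoint ℂ)) z :=
        OnePoint.continuous_coe.continuousAt.comp
          (rayMap_differentiableAt τ (hne z hz1)).continuousAt
      apply h1.congr
      filter_upwards [isOpen_ne.mem_nhds hz1] with w hw
      simp [hw]
  · intro z hz
    have : z ≠ -1 := by
      rintro rfl
      simp at hz
    simp [this]
  · intro z _
    by_cases hz1 : z = -1
    · simp [hz1]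
    · simp [hz1]
  · intro z hz
    by_cases hz1 : z = -1
    · simp only [hz1, if_true]
      constructor
      · intro h
        exact absurd h (OnePoint.infty_ne_coe _)
      · intro h
        exfalso
        rw [← zeta_tip hφ, ← hτ] at h
        have h1 : (1 : ℂ) + (τ : ℂ) * I ≠ 0 := by
          intro h0
          have := congrArg Complex.re h0
          simp at this
        apply one_add_zeta h1
        rw [← h]
        ring
    · simp only [hz1, if_false, OnePoint.coe_eq_coe]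
      have h1 : (1 : ℂ) + (τ : ℂ) * I ≠ 0 := by
        intro h0
        have := congrArg Complex.re h0
        simp at this
      rw [← zeta_tip hφ, ← hτ]
      unfold rayMap
      constructor
      · intro h
        have h2 : (zeta z - (τ : ℂ) * I) ^ 2 = 0 := by
          field_simp at h
          linear_combination -h
        have h3 : zeta z = (τ : ℂ) * I := sub_eq_zero.mp (pow_eq_zero_iff (by norm_num) |>.mp h2)
        rw [← h3, zeta_zeta (hne z hz1)]
      · intro h
        rw [h, zeta_zeta h1]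
        simp

/-- The half line leaves its tip in the direction `- φ / 2`. -/
lemma inSector_ray {φ : ℝ} (hφ : φ ∈ Ioo (-Real.pi) Real.pi) {θ₀ θ₁ : ℝ}
    (h : -(φ / 2) ∈ Icc θ₀ θ₁) :
    InSector (rayMap (-Real.tan (φ / 2)) '' ball 0 1)ᶜ (cc (-Real.tan (φ / 2)) / 4) θ₀ θ₁ := by
  have hcos : 0 < Real.cos (φ / 2) := by
    apply Real.cos_pos_of_mem_Ioo
    constructor <;> linarith [hφ.1, hφ.2]
  rw [rayMap_compl]
  rintro ω ⟨s, hs, rfl⟩ hne
  have hs0 : s ≠ 0 := by
    rintro rfl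
    apply hne
    simp
  have hs1 : 0 < s := lt_of_le_of_ne hs (Ne.symm hs0)
  refine ⟨s * (Real.cos (φ / 2) / 4), by positivity, -(φ / 2), h, ?_⟩
  rw [add_sub_cancel_left, div_eq_mul_inv, four_cc_inv_polar hφ]
  push_cast
  ring

end

end Pool.Agent.Work.MP_2e7b1e_an
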