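import Mathlib
import Pool.Agent.Work.MP_2e7b1e_an.Defs

/-!
The refined classes, in which the axis of the sector has a prescribed direction relative to the
radial direction of the tip.
-/

set_option autoImplicit false

open Complex Metric Set Filter Topology

namespace Pool.Agent.Work.MP_2e7b1e_an

/-- `f ∈ Σ_α` with tip `ω₀`, where the sector of opening `α π` and vertex `ω₀` containing the slit
is the one whose axis has direction `arg ω₀ + δ`: `δ` is the angle between the radial direction of
the tip (the direction from the origin to `ω₀`) and the axis of the sector. -/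
def InSigmaAxis (α δ : ℝ) (f : ℂ → ℂ) (ω₀ : ℂ) : Prop :=
  ClassS f ∧ IsSlit (f '' ball 0 1)ᶜ ω₀ ∧
    InSector (f '' ball 0 1)ᶜ ω₀ (arg ω₀ + δ - α * Real.pi / 2) (arg ω₀ + δ + α * Real.pi / 2)

/-- The set of all values `φ_f ∈ (-π, π)` for slit maps `f`, `f(-1) = ∞`, with slit in a sector of
opening `α π` whose axis makes the angle `δ` with the radial direction of the tip. -/
def tipArgumentsAxis (α δ : ℝ) : Set ℝ :=
  {φ | φ ∈ Ioo (-Real.pi) Real.pi ∧ ∃ (f : ℂ → ℂ) (ω₀ : ℂ), InSigmaAxis α δ f ω₀ ∧ TipAt f ω₀ φ}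

end Pool.Agent.Work.MP_2e7b1e_an
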