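import Mathlib
import Pool.Agent.Work.MP_2e7b1e_an.Defs

/-!
Tools for the upper bound: open mapping, a Phragmén-Lindelöf principle in the disc, and the
logarithm of `1 - f / ω₀`.
-/

set_option autoImplicit false

open Complex Metric Set Filter Topology

namespace Pool.Agent.Work.MP_2e7b1e_an

section openmap

variable {f : ℂ → ℂ}

lemma map_nhds_of_injOn (hd : DifferentiableOn ℂ f (ball 0 1)) (hi : InjOn f (ball 0 1)) {z₀ : ℂ}
    (hz₀ : z₀ ∈ ball (0 : ℂ) 1) : 𝓝 (f z₀) ≤ map f (𝓝 z₀) := by
  have han : AnalyticAt ℂ f z₀ := hd.analyticAt (isOpen_ball.mem_nhds hz₀)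
  rcases han.eventually_constant_or_nhds_le_map_nhds with h | h
  · exfalso
    have h1 : ∀ᶠ z in 𝓝 z₀, z ∈ ball (0 : ℂ) 1 := isOpen_ball.mem_nhds hz₀
    have h2 : ∀ᶠ z in 𝓝 z₀, z = z₀ := by
      filter_upwards [h, h1] with z hz hz1
      exact hi hz1 hz₀ hz
    have h3 : ∀ᶠ z in 𝓝[≠] z₀, z = z₀ := h2.filter_mono nhdsWithin_le_nhds
    have h4 : ∀ᶠ z in 𝓝[≠] z₀, z ≠ z₀ := self_mem_nhdsWithin
    have h5 : ∀ᶠ z in 𝓝[≠] z₀, False := by
      filter_upwards [h3, h4] with z hz hz'
      exact hz' hz
    exact (Filter.eventually_false_iff_eq_bot.mp h5 ▸ (inferInstance : (𝓝[≠] z₀).NeBot)).ne rfl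
  · exact h

/-- The inverse of `f` on the disc is continuous on the image. -/
lemma continuousAt_invFunOn (hd : DifferentiableOn ℂ f (ball 0 1)) (hi : InjOn f (ball 0 1))
    {z₀ : ℂ} (hz₀ : z₀ ∈ ball (0 : ℂ) 1) :
    ContinuousAt (Function.invFunOn f (ball 0 1)) (f z₀) := by
  have hinv : Function.invFunOn f (ball 0 1) (f z₀) = z₀ := hi.leftInvOn_invFunOn hz₀
  unfold ContinuousAt
  rw [hinv]
  intro U hU
  have h1 : U ∩ ball (0 : ℂ) 1 ∈ 𝓝 z₀ := inter_mem hU (isOpen_ball.mem_nhds hz₀)
  have h2 : f '' (U ∩ ball (0 : ℂ) 1) ∈ 𝓝 (f z₀) :=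
    map_nhds_of_injOn hd hi hz₀ (image_mem_map h1)
  rw [mem_map]
  filter_upwards [h2] with w hw
  obtain ⟨z, ⟨hzU, hzb⟩, rfl⟩ := hw
  show Function.invFunOn f (ball 0 1) (f z) ∈ U
  rw [hi.leftInvOn_invFunOn hzb]
  exact hzU

end openmap

/-- A Phragmén-Lindelöf principle: an upper bound on the circle minus two points. -/
lemma im_le_of_boundary {q : ℂ → ℂ} {a b : ℂ} {M B : ℝ}
    (ha : a ∈ sphere (0 : ℂ) 1) (hb : b ∈ sphere (0 : ℂ) 1)
    (hc : ContinuousOn q (closedBall 0 1 \ {a, b}))
    (hd : DifferentiableOn ℂ q (ball 0 1))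
    (hM : ∀ z ∈ ball (0 : ℂ) 1, (q z).im ≤ M)
    (hB : ∀ z ∈ sphere (0 : ℂ) 1, z ≠ a → z ≠ b → (q z).im ≤ B) :
    ∀ z ∈ ball (0 : ℂ) 1, (q z).im ≤ B := by
  intro z₀ hz₀
  have hza : z₀ ≠ a := by
    rintro rfl
    simp at ha hz₀
    linarith
  have hzb : z₀ ≠ b := by
    rintro rfl
    simp at hb hz₀
    linarith
  -- upper bound `M` also on the closed disc
  have hM' : ∀ z ∈ closedBall (0 : ℂ) 1 \ {a, b}, (q z).im ≤ max M B := by
    intro z hz
    by_cases h : z ∈ ball (0 : ℂ) 1
    · exact (hM z h).trans (le_max_left _ _)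
    · have h1 : z ∈ sphere (0 : ℂ) 1 := by
        have h2 := hz.1
        simp only [mem_closedBall, mem_ball, mem_sphere, dist_zero_right] at h h2 ⊢
        linarith
      have h3 := hz.2
      simp only [mem_insert_iff, mem_singleton_iff, not_or] at h3
      exact (hB z h1 h3.1 h3.2).trans (le_max_right _ _)
  have key : ∀ n : ℕ, Real.exp (n * ((q z₀).im - B)) * (‖z₀ - a‖ * ‖z₀ - b‖ / 4) ≤ 1 := by
    intro n
    set P : ℂ → ℂ := fun z => exp (-(I * n) * (q z - B * I)) * ((z - a) * (z - b) / 4) with hP
    have hnorm : ∀ z, ‖P z‖ = Real.exp (n * ((q z).im - B)) * (‖z - a‖ * ‖z - b‖ / 4) := by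
      intro z
      rw [hP]
      simp only [norm_mul, norm_div, Complex.norm_exp]
      congr 2
      · simp
      · norm_num
    set P' : ℂ → ℂ := fun z => if z = a ∨ z = b then 0 else P z with hP'
    have hPd : DifferentiableOn ℂ P' (ball 0 1) := by
      have h1 : DifferentiableOn ℂ P (ball 0 1) := by
        rw [hP]
        apply DifferentiableOn.mul
        · apply DifferentiableOn.cexp
          apply DifferentiableOn.const_mul
          exact hd.sub_const _
        · fun_prop
      apply h1.congr
      intro z hz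
      have hna : z ≠ a := by
        rintro rfl
        simp at ha hz
        linarith
      have hnb : z ≠ b := by
        rintro rfl
        simp at hb hz
        linarith
      simp [hP', hna, hnb]
    have hPc : ContinuousOn P' (closedBall 0 1) := by
      intro z hz
      by_cases h : z = a ∨ z = b
      · -- squeeze
        have hz0 : P' z = 0 := by simp [hP', h]
        unfold ContinuousWithinAt
        rw [hz0]
        rw [tendsto_zero_iff_norm_tendsto_zero]
        have hbound : ∀ w ∈ closedBall (0 : ℂ) 1,
            ‖P' w‖ ≤ Real.exp (n * (max M B - B)) * (‖w - a‖ * ‖w - b‖ / 4) := by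
          intro w hw
          by_cases h' : w = a ∨ w = b
          · simp only [hP', h', if_true, norm_zero]
            positivity
          · simp only [hP', h', if_false]
            rw [hnorm]
            apply mul_le_mul_of_nonneg_right _ (by positivity)
            apply Real.exp_le_exp.mpr
            apply mul_le_mul_of_nonneg_left _ (Nat.cast_nonneg n)
            have := hM' w ⟨hw, by simpa using h'⟩
            linarith
        have hlim : Tendsto (fun w : ℂ => Real.exp (n * (max M B - B)) * (‖w - a‖ * ‖w - b‖ / 4))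
            (𝓝[closedBall 0 1] z) (𝓝 0) := by
          have hcont : Continuous
              (fun w : ℂ => Real.exp (n * (max M B - B)) * (‖w - a‖ * ‖w - b‖ / 4)) := by
            fun_prop
          have h2 : Real.exp (n * (max M B - B)) * (‖z - a‖ * ‖z - b‖ / 4) = 0 := by
            rcases h with h | h <;> simp [h]
          rw [← h2]
          exact (hcont.tendsto z).mono_left nhdsWithin_le_nhds
        apply squeeze_zero' _ _ hlim
        · exact Eventually.of_forall fun _ => norm_nonneg _
        · filter_upwards [self_mem_nhdsWithin] with w hw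
          exact hbound w hw
      · have hz' : z ∈ closedBall (0 : ℂ) 1 \ {a, b} := ⟨hz, by simpa using h⟩
        have h1 : ContinuousOn P (closedBall 0 1 \ {a, b}) := by
          rw [hP]
          apply ContinuousOn.mul
          · apply ContinuousOn.cexp
            apply ContinuousOn.mul continuousOn_const
            exact hc.sub continuousOn_const
          · fun_prop
        have h2 : ContinuousWithinAt P (closedBall 0 1) z := by
          have h3 : closedBall (0 : ℂ) 1 \ {a, b} ∈ 𝓝[closedBall 0 1] z := by
            apply inter_mem self_mem_nhdsWithin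
            apply mem_nhdsWithin_of_mem_nhds
            exact (Set.toFinite {a, b}).isClosed.isOpen_compl.mem_nhds (by simpa using h)
          exact (h1 z hz').mono_of_mem_nhdsWithin h3
        apply h2.congr_of_eventuallyEq
        · have h3 : {a, b}ᶜ ∈ 𝓝[closedBall (0 : ℂ) 1] z := by
            apply mem_nhdsWithin_of_mem_nhds
            exact (Set.toFinite {a, b}).isClosed.isOpen_compl.mem_nhds (by simpa using h)
          filter_upwards [h3] with w hw
          have : ¬ (w = a ∨ w = b) := by simpa using hw
          simp [hP', this]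
        · simp [hP', h]
    have hmax : ‖P' z₀‖ ≤ 1 := by
      apply Complex.norm_le_of_forall_mem_frontier_norm_le (U := ball 0 1) isBounded_ball
      · refine ⟨hPd, ?_⟩
        rw [closure_ball _ one_ne_zero]
        exact hPc
      · intro z hz
        rw [frontier_ball _ one_ne_zero] at hz
        by_cases h' : z = a ∨ z = b
        · simp [hP', h']
        · simp only [hP', h', if_false]
          rw [hnorm]
          push Not at h'
          have h1 : Real.exp (n * ((q z).im - B)) ≤ 1 := by
            rw [Real.exp_le_one_iff]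
            have := hB z hz h'.1 h'.2
            apply mul_nonpos_of_nonneg_of_nonpos (Nat.cast_nonneg n)
            linarith
          have h2 : ‖z - a‖ ≤ 2 := by
            have h3 := norm_sub_le z a
            simp at hz ha
            linarith
          have h3 : ‖z - b‖ ≤ 2 := by
            have h3 := norm_sub_le z b
            simp at hz hb
            linarith
          have h4 : ‖z - a‖ * ‖z - b‖ / 4 ≤ 1 := by
            have := mul_le_mul h2 h3 (norm_nonneg _) (by norm_num)
            linarith
          calc Real.exp (n * ((q z).im - B)) * (‖z - a‖ * ‖z - b‖ / 4) ≤ 1 * 1 :=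
                mul_le_mul h1 h4 (by positivity) (by norm_num)
            _ = 1 := by norm_num
      · exact subset_closure hz₀
    have : P' z₀ = P z₀ := by simp [hP', hza, hzb]
    rw [this, hnorm] at hmax
    exact hmax
  by_contra hcon
  push Not at hcon
  set c : ℝ := ‖z₀ - a‖ * ‖z₀ - b‖ / 4 with hcdef
  have hcpos : 0 < c := by
    have h1 := norm_pos_iff.mpr (sub_ne_zero.mpr hza)
    have h2 := norm_pos_iff.mpr (sub_ne_zero.mpr hzb)
    positivity
  set d : ℝ := (q z₀).im - B with hd'
  have hdpos : 0 < d := by linarith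
  obtain ⟨n, hn⟩ := exists_nat_gt (1 / (c * d))
  have h1 := key n
  have h2 : (n : ℝ) * d + 1 ≤ Real.exp (n * d) := Real.add_one_le_exp _
  have h3 : 1 < (n : ℝ) * d * c := by
    rw [div_lt_iff₀ (by positivity)] at hn
    nlinarith
  nlinarith

end Pool.Agent.Work.MP_2e7b1e_an
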