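import Mathlib
import Pool.Agent.Work.MP_2e7b1e_an.Defs
import Pool.Agent.Work.MP_2e7b1e_an.Upper

/-!
Continuous logarithms on the closed disc minus boundary points, and the logarithm of
`1 - f / ω₀` for a slit map.
-/

set_option autoImplicit false

open Complex Metric Set Filter Topology

namespace Pool.Agent.Work.MP_2e7b1e_an

lemma convex_closedBall_diff {a b : ℂ} (ha : a ∈ sphere (0 : ℂ) 1) (hb : b ∈ sphere (0 : ℂ) 1) :
    Convex ℝ (closedBall (0 : ℂ) 1 \ {a, b}) := by
  intro x hx y hy s t hs ht hst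
  by_cases hxy : x = y
  · subst hxy
    rw [← add_smul, hst, one_smul]
    exact hx
  rcases hs.eq_or_lt with h | h
  · subst h
    have : t = 1 := by linarith
    subst this
    simpa using hy
  rcases ht.eq_or_lt with h' | h'
  · subst h'
    have : s = 1 := by linarith
    subst this
    simpa using hx
  have h1 : s • x + t • y ∈ interior (closedBall (0 : ℂ) 1) :=
    strictConvex_closedBall ℝ (0 : ℂ) 1 hx.1 hy.1 hxy h h' hst
  rw [interior_closedBall _ one_ne_zero] at h1
  refine ⟨ball_subset_closedBall h1, ?_⟩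
  simp only [mem_insert_iff, mem_singleton_iff, not_or]
  constructor
  · intro h2
    rw [h2] at h1
    simp at ha h1
    linarith
  · intro h2
    rw [h2] at h1
    simp at hb h1
    linarith

/-- Continuous logarithm on a convex set. -/
lemma exists_log_of_convex {C : Set ℂ} (hC : Convex ℝ C) (h0 : (0 : ℂ) ∈ C) {h : ℂ → ℂ}
    (hc : ContinuousOn h C) (hne : ∀ z ∈ C, h z ≠ 0) (h1 : h 0 = 1) :
    ∃ G : ℂ → ℂ, ContinuousOn G C ∧ (∀ z ∈ C, exp (G z) = h z) ∧ G 0 = 0 := by
  classical
  have : ContractibleSpace C := hC.contractibleSpace ⟨0, h0⟩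
  have : LocallyPathConnectedSpace C := hC.locallyPathConnectedSpace
  have key := isCoveringMapOn_exp.existsUnique_continuousMap_lifts
    (⟨C.domRestrict h, continuousOn_iff_continuous_domRestrict.mp hc⟩ : C(C, ℂ))
    (a₀ := ⟨0, h0⟩) (e₀ := 0) (by simp [h1]) (fun x => hne x.1 x.2)
  obtain ⟨F, ⟨hF0, hF⟩, -⟩ := key
  refine ⟨fun z => if hz : z ∈ C then F ⟨z, hz⟩ else 0, ?_, ?_, ?_⟩
  · rw [continuousOn_iff_continuous_domRestrict]
    convert map_continuous F using 1
    ext z
    simp
  · intro z hz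
    simp only [hz, dif_pos]
    exact congrFun hF ⟨z, hz⟩
  · simp only [h0, dif_pos]
    exact hF0

/-- A continuous logarithm of a differentiable function is differentiable. -/
lemma differentiableOn_of_exp {G h : ℂ → ℂ} (hG : ContinuousOn G (ball 0 1))
    (hexp : ∀ z ∈ ball (0 : ℂ) 1, exp (G z) = h z) (hh : DifferentiableOn ℂ h (ball 0 1)) :
    DifferentiableOn ℂ G (ball 0 1) := by
  intro z₀ hz₀
  apply DifferentiableAt.differentiableWithinAt
  have hnhds : ball (0 : ℂ) 1 ∈ 𝓝 z₀ := isOpen_ball.mem_nhds hz₀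
  have hGc : ContinuousAt G z₀ := hG.continuousAt hnhds
  have hhd : DifferentiableAt ℂ h z₀ := hh.differentiableAt hnhds
  have hh0 : h z₀ ≠ 0 := by rw [← hexp z₀ hz₀]; exact exp_ne_zero _
  have h1 : DifferentiableAt ℂ (fun z => log (h z / h z₀) + G z₀) z₀ := by
    apply DifferentiableAt.add_const
    apply DifferentiableAt.clog
    · exact hhd.div_const _
    · rw [div_self hh0]; exact one_mem_slitPlane
  apply h1.congr_of_eventuallyEq
  have h2 : ∀ᶠ z in 𝓝 z₀, ‖G z - G z₀‖ < 1 := by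
    have := Metric.continuousAt_iff.mp hGc 1 one_pos
    obtain ⟨δ, hδ, hδ'⟩ := this
    filter_upwards [ball_mem_nhds z₀ hδ] with z hz
    have := hδ' hz
    rwa [dist_eq_norm] at this
  filter_upwards [h2, hnhds] with z hz hzb
  have h3 : h z / h z₀ = exp (G z - G z₀) := by
    rw [exp_sub, hexp z hzb, hexp z₀ hz₀]
  rw [h3, log_exp]
  · ring
  · have := abs_im_le_norm (G z - G z₀)
    have h4 := Real.pi_gt_three
    have h5 := (abs_le.mp (this.trans hz.le)).1
    linarith
  · have := abs_im_le_norm (G z - G z₀)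
    have h4 := Real.pi_gt_three
    have h5 := (abs_le.mp (this.trans hz.le)).2
    linarith

/-- A continuous function on a preconnected set whose imaginary part is always a multiple of `2π`
and which vanishes somewhere has imaginary part `0`. -/
lemma im_eq_zero_of_preconnected {S : Set ℂ} (hS : IsPreconnected S) {Ψ : ℂ → ℂ}
    (hc : ContinuousOn Ψ S) (hk : ∀ ξ ∈ S, ∃ k : ℤ, Ψ ξ = k * (2 * Real.pi * I)) {ξ₀ : ℂ}
    (h0 : ξ₀ ∈ S) (hz : Ψ ξ₀ = 0) : ∀ ξ ∈ S, Ψ ξ = 0 := by
  intro ξ hξ
  obtain ⟨k, hk'⟩ := hk ξ hξ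
  by_contra hne
  have hkne : k ≠ 0 := by
    rintro rfl
    apply hne
    simpa using hk'
  have hcim : ContinuousOn (fun x => (Ψ x).im) S := continuous_im.comp_continuousOn hc
  have him : ∀ x ∈ S, ∃ k : ℤ, (Ψ x).im = k * (2 * Real.pi) := by
    intro x hx
    obtain ⟨k, hk⟩ := hk x hx
    refine ⟨k, ?_⟩
    rw [hk]
    simp
  have hpi := Real.pi_pos
  rcases lt_or_gt_of_ne hkne with h | h
  · -- negative
    have h1 : (Ψ ξ).im = k * (2 * Real.pi) := by rw [hk']; simp
    have h2 : (k : ℝ) ≤ -1 := by exact_mod_cast (by omega : k ≤ -1)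
    have h3 : -Real.pi ∈ Icc (Ψ ξ).im (Ψ ξ₀).im := by
      rw [h1, hz]
      constructor
      · nlinarith
      · simp; linarith
    obtain ⟨x, hx, hx'⟩ := hS.intermediate_value hξ h0 hcim h3
    obtain ⟨m, hm⟩ := him x hx
    simp only at hx'
    rw [hm] at hx'
    have h4 : (m : ℝ) * 2 = -1 := by
      have : (m : ℝ) * 2 * Real.pi = -1 * Real.pi := by linarith
      exact mul_right_cancel₀ hpi.ne' this
    have h5 : m * 2 = -1 := by exact_mod_cast h4
    omega
  · have h1 : (Ψ ξ).im = k * (2 * Real.pi) := by rw [hk']; simp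
    have h2 : (1 : ℝ) ≤ k := by exact_mod_cast (by omega : 1 ≤ k)
    have h3 : Real.pi ∈ Icc (Ψ ξ₀).im (Ψ ξ).im := by
      rw [h1, hz]
      constructor
      · simp; linarith
      · nlinarith
    obtain ⟨x, hx, hx'⟩ := hS.intermediate_value h0 hξ hcim h3
    obtain ⟨m, hm⟩ := him x hx
    simp only at hx'
    rw [hm] at hx'
    have h4 : (m : ℝ) * 2 = 1 := by
      have : (m : ℝ) * 2 * Real.pi = 1 * Real.pi := by linarith
      exact mul_right_cancel₀ hpi.ne' this
    have h5 : m * 2 = 1 := by exact_mod_cast h4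
    omega

end Pool.Agent.Work.MP_2e7b1e_an
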