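import Mathlib
import Pool.Agent.Work.MP_2e7b1e_an.Defs
import Pool.Agent.Work.MP_2e7b1e_an.Upper
import Pool.Agent.Work.MP_2e7b1e_an.LogLift

/-!
The upper bound for the tip argument of a slit map whose slit lies in a sector not containing the
origin.
-/

set_option autoImplicit false

open Complex Metric Set Filter Topology

namespace Pool.Agent.Work.MP_2e7b1e_an

/-- All directions of `Γ` seen from `ω₀`, measured relative to the direction of `ω₀` itself, lie in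
`[θ₁, θ₂]`. -/
def RelSector (Γ : Set ℂ) (ω₀ : ℂ) (θ₁ θ₂ : ℝ) : Prop :=
  ∀ ω ∈ Γ, ω ≠ ω₀ → ∃ r : ℝ, 0 < r ∧ ∃ s ∈ Icc θ₁ θ₂, ω - ω₀ = (r : ℂ) * ω₀ * exp ((s : ℂ) * I)

lemma boundary_ne {f : ℂ → ℂ} (hd : DifferentiableOn ℂ f (ball 0 1)) (hi : InjOn f (ball 0 1))
    {F : ℂ → OnePoint ℂ} (hF : ContinuousOn F (closedBall 0 1))
    (hFf : ∀ z ∈ ball (0 : ℂ) 1, F z = (f z : OnePoint ℂ)) {ξ : ℂ} (hξ : ξ ∈ sphere (0 : ℂ) 1)
    {z₀ : ℂ} (hz₀ : z₀ ∈ ball (0 : ℂ) 1) : F ξ ≠ (f z₀ : OnePoint ℂ) := by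
  intro hcon
  have hξc : ξ ∈ closedBall (0 : ℂ) 1 := sphere_subset_closedBall hξ
  have hne : (𝓝[ball (0 : ℂ) 1] ξ).NeBot := by
    rw [← mem_closure_iff_nhdsWithin_neBot, closure_ball _ one_ne_zero]
    exact hξc
  have h1 : Tendsto F (𝓝[ball (0 : ℂ) 1] ξ) (𝓝 (f z₀ : OnePoint ℂ)) := by
    rw [← hcon]
    exact (hF ξ hξc).mono_left (nhdsWithin_mono _ ball_subset_closedBall)
  have h2 : Tendsto (fun z => (f z : OnePoint ℂ)) (𝓝[ball (0 : ℂ) 1] ξ)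
      (𝓝 (f z₀ : OnePoint ℂ)) := by
    apply h1.congr'
    filter_upwards [self_mem_nhdsWithin] with z hz
    exact hFf z hz
  have h3 : Tendsto f (𝓝[ball (0 : ℂ) 1] ξ) (𝓝 (f z₀)) :=
    (OnePoint.isOpenEmbedding_coe.isInducing.tendsto_nhds_iff).mpr h2
  -- a small neighbourhood of `z₀` away from `ξ`
  have hne' : z₀ ≠ ξ := by
    rintro rfl
    simp at hξ hz₀
    linarith
  obtain ⟨U, V, hU, hV, hzU, hξV, hUV⟩ := t2_separation hne'
  have h4 : f '' (U ∩ ball (0 : ℂ) 1) ∈ 𝓝 (f z₀) :=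
    map_nhds_of_injOn hd hi hz₀
      (image_mem_map (inter_mem (hU.mem_nhds hzU) (isOpen_ball.mem_nhds hz₀)))
  have h5 : ∀ᶠ z in 𝓝[ball (0 : ℂ) 1] ξ, f z ∈ f '' (U ∩ ball (0 : ℂ) 1) := h3 h4
  have h6 : ∀ᶠ z in 𝓝[ball (0 : ℂ) 1] ξ, z ∈ V :=
    mem_nhdsWithin_of_mem_nhds (hV.mem_nhds hξV)
  have h7 : ∀ᶠ z in 𝓝[ball (0 : ℂ) 1] ξ, False := by
    filter_upwards [h5, h6, self_mem_nhdsWithin] with z hz5 hz6 hz7
    obtain ⟨w, ⟨hwU, hwb⟩, hw⟩ := hz5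
    have : w = z := hi hwb hz7 hw
    subst this
    exact (Set.disjoint_left.mp hUV hwU hz6).elim
  exact hne.ne (Filter.eventually_false_iff_eq_bot.mp h7)

lemma exists_h {f : ℂ → ℂ} {ω₀ : ℂ} {φ θ₁ θ₂ : ℝ} (hS : ClassS f)
    (hω₀ : ω₀ ∈ (f '' ball 0 1)ᶜ) (hrel : RelSector (f '' ball 0 1)ᶜ ω₀ θ₁ θ₂)
    (hT : TipAt f ω₀ φ) :
    ∃ h : ℂ → ℂ, ContinuousOn h (closedBall 0 1 \ {-1, exp ((φ : ℂ) * I)}) ∧
      (∀ z ∈ ball (0 : ℂ) 1, h z = 1 - f z / ω₀) ∧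
      (∀ z ∈ sphere (0 : ℂ) 1, z ≠ -1 → z ≠ exp ((φ : ℂ) * I) →
        ∃ r : ℝ, 0 < r ∧ ∃ s ∈ Icc θ₁ θ₂, h z = -((r : ℂ) * exp ((s : ℂ) * I))) ∧
      Tendsto (fun z => ‖f z‖) (𝓝[ball 0 1] (-1)) atTop := by
  classical
  obtain ⟨hd, hi, hf0, hf1⟩ := hS
  obtain ⟨F, hF, hFf, hFinf, hFtip⟩ := hT
  have hω₀0 : ω₀ ≠ 0 := by
    rintro rfl
    exact hω₀ ⟨0, by simp, hf0⟩
  have hfin : ∀ z ∈ closedBall (0 : ℂ) 1 \ {-1, exp ((φ : ℂ) * I)},
      ∃ ω : ℂ, F z = (ω : OnePoint ℂ) := by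
    intro z hz
    by_cases hzb : z ∈ ball (0 : ℂ) 1
    · exact ⟨f z, hFf z hzb⟩
    · have hzs : z ∈ sphere (0 : ℂ) 1 := by
        have h2 := hz.1
        simp only [mem_closedBall, mem_ball, mem_sphere, dist_zero_right] at hzb h2 ⊢
        linarith
      have hne : F z ≠ OnePoint.infty := by
        intro h
        have := (hFinf z hzs).mp h
        exact hz.2 (by simp [this])
      obtain ⟨ω, hω⟩ := OnePoint.ne_infty_iff_exists.mp hne
      exact ⟨ω, hω.symm⟩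
  set Fc : ℂ → ℂ := fun z => if h : ∃ ω : ℂ, F z = (ω : OnePoint ℂ) then h.choose else 0 with hFc
  have hFc' : ∀ z ∈ closedBall (0 : ℂ) 1 \ {-1, exp ((φ : ℂ) * I)}, F z = (Fc z : OnePoint ℂ) := by
    intro z hz
    have h := hfin z hz
    simp only [hFc, h, dif_pos]
    exact h.choose_spec
  have hball : ball (0 : ℂ) 1 ⊆ closedBall (0 : ℂ) 1 \ {-1, exp ((φ : ℂ) * I)} := by
    intro z hz
    refine ⟨ball_subset_closedBall hz, ?_⟩
    simp only [mem_insert_iff, mem_singleton_iff, not_or]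
    constructor
    · rintro rfl
      simp at hz
    · rintro rfl
      rw [mem_ball_zero_iff, norm_exp_ofReal_mul_I] at hz
      linarith
  have hFcball : ∀ z ∈ ball (0 : ℂ) 1, Fc z = f z := by
    intro z hz
    have h1 := hFc' z (hball hz)
    rw [hFf z hz] at h1
    exact (OnePoint.coe_eq_coe.mp h1).symm
  have hFcc : ContinuousOn Fc (closedBall 0 1 \ {-1, exp ((φ : ℂ) * I)}) := by
    rw [OnePoint.isOpenEmbedding_coe.isInducing.continuousOn_iff]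
    have h1 : ContinuousOn F (closedBall 0 1 \ {-1, exp ((φ : ℂ) * I)}) := hF.mono sdiff_subset
    apply h1.congr
    intro z hz
    exact (hFc' z hz).symm
  refine ⟨fun z => 1 - Fc z / ω₀, ?_, ?_, ?_, ?_⟩
  · exact continuousOn_const.sub (hFcc.div_const _)
  · intro z hz
    simp only [hFcball z hz]
  · intro z hz h1 h2
    have hzC : z ∈ closedBall (0 : ℂ) 1 \ {-1, exp ((φ : ℂ) * I)} :=
      ⟨sphere_subset_closedBall hz, by simp [h1, h2]⟩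
    have hmem : Fc z ∈ (f '' ball 0 1)ᶜ := by
      rintro ⟨z₀, hz₀, hz₀'⟩
      apply boundary_ne hd hi hF hFf hz hz₀
      rw [hFc' z hzC, hz₀']
    have hne : Fc z ≠ ω₀ := by
      intro h
      apply h2
      apply (hFtip z hz).mp
      rw [hFc' z hzC, h]
    obtain ⟨r, hr, s, hs, hrs⟩ := hrel _ hmem hne
    refine ⟨r, hr, s, hs, ?_⟩
    have : Fc z = ω₀ + (r : ℂ) * ω₀ * exp ((s : ℂ) * I) := by linear_combination hrs
    simp only [this]
    field_simp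
    ring
  · have h1 : (-1 : ℂ) ∈ closedBall (0 : ℂ) 1 := by simp
    have h2 : F (-1) = OnePoint.infty := (hFinf (-1) (by simp)).mpr rfl
    have h3 : Tendsto F (𝓝[ball (0 : ℂ) 1] (-1)) (𝓝 OnePoint.infty) := by
      rw [← h2]
      exact (hF (-1) h1).mono_left (nhdsWithin_mono _ ball_subset_closedBall)
    have h4 : Tendsto (fun z => (f z : OnePoint ℂ)) (𝓝[ball (0 : ℂ) 1] (-1))
        (𝓝 OnePoint.infty) := by
      apply h3.congr'
      filter_upwards [self_mem_nhdsWithin] with z hz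
      exact hFf z hz
    have h5 : Tendsto f (𝓝[ball (0 : ℂ) 1] (-1)) (coclosedCompact ℂ) := by
      rw [← OnePoint.comap_coe_nhds_infty]
      exact tendsto_comap_iff.mpr h4
    rw [coclosedCompact_eq_cocompact, ← Metric.cobounded_eq_cocompact] at h5
    exact tendsto_norm_atTop_iff_cobounded.mpr h5

end Pool.Agent.Work.MP_2e7b1e_an
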