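import Mathlib
import Pool.Agent.Work.MP_2e7b1e_an.Defs
import Pool.Agent.Work.MP_2e7b1e_an.Upper
import Pool.Agent.Work.MP_2e7b1e_an.LogLift
import Pool.Agent.Work.MP_2e7b1e_an.UpperMain

/-!
The upper bound for the tip argument, second part.
-/

set_option autoImplicit false

open Complex Metric Set Filter Topology

namespace Pool.Agent.Work.MP_2e7b1e_an

section strip

variable {f : ℂ → ℂ} {ω₀ : ℂ} {θ₁ θ₂ : ℝ}

lemma strip_mem (hω₀0 : ω₀ ≠ 0) (hrel : RelSector (f '' ball 0 1)ᶜ ω₀ θ₁ θ₂) {ξ : ℂ}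
    (h1 : θ₂ - Real.pi < ξ.im) (h2 : ξ.im < θ₁ + Real.pi) :
    ω₀ * (1 - exp ξ) ∈ f '' ball 0 1 := by
  by_contra hcon
  have hne : ω₀ * (1 - exp ξ) ≠ ω₀ := by
    intro h
    have h3 : ω₀ * exp ξ = 0 := by linear_combination -h
    rcases mul_eq_zero.mp h3 with h4 | h4
    · exact hω₀0 h4
    · exact exp_ne_zero ξ h4
  obtain ⟨r, hr, s, hs, hrs⟩ := hrel _ hcon hne
  have h3 : exp ξ = exp (((Real.log r : ℝ) : ℂ) + ((s : ℂ) + Real.pi) * I) := by
    rw [exp_add, ← ofReal_exp, Real.exp_log hr, add_mul, exp_add, exp_pi_mul_I]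
    have h4 : ω₀ * (exp ξ + (r : ℂ) * exp ((s : ℂ) * I)) = 0 := by linear_combination -hrs
    rcases mul_eq_zero.mp h4 with h5 | h5
    · exact absurd h5 hω₀0
    · linear_combination h5
  obtain ⟨k, hk⟩ := exp_eq_exp_iff_exists_int.mp h3
  have him := congrArg Complex.im hk
  have hpi := Real.pi_pos
  simp at him
  have h5 : (k : ℝ) * (2 * Real.pi) < 0 := by linarith [hs.1]
  have h6 : -(2 * Real.pi) < (k : ℝ) * (2 * Real.pi) := by linarith [hs.2]
  have h7 : (k : ℝ) < 0 := by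
    by_contra h
    push Not at h
    nlinarith
  have h8 : (-1 : ℝ) < k := by
    by_contra h
    push Not at h
    nlinarith
  have h9 : k < 0 := by exact_mod_cast h7
  have h10 : -1 < k := by exact_mod_cast h8
  omega

lemma G_strip (hd : DifferentiableOn ℂ f (ball 0 1)) (hi : InjOn f (ball 0 1)) (hf0 : f 0 = 0)
    (hω₀0 : ω₀ ≠ 0) (hrel : RelSector (f '' ball 0 1)ᶜ ω₀ θ₁ θ₂)
    (ht1 : -Real.pi < θ₁) (ht2 : θ₂ < Real.pi)
    {G : ℂ → ℂ} (hGc : ContinuousOn G (ball 0 1))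
    (hG : ∀ z ∈ ball (0 : ℂ) 1, exp (G z) = 1 - f z / ω₀) (hG0 : G 0 = 0)
    {ξ : ℂ} (h1 : θ₂ - Real.pi < ξ.im) (h2 : ξ.im < θ₁ + Real.pi) :
    G (Function.invFunOn f (ball 0 1) (ω₀ * (1 - exp ξ))) = ξ := by
  set σ : ℂ → ℂ := fun ξ => Function.invFunOn f (ball 0 1) (ω₀ * (1 - exp ξ)) with hσ
  set S : Set ℂ := {ξ : ℂ | θ₂ - Real.pi < ξ.im ∧ ξ.im < θ₁ + Real.pi} with hS
  have hmem : ∀ x ∈ S, σ x ∈ ball (0 : ℂ) 1 := by
    intro x hx
    exact Function.invFunOn_mem (strip_mem hω₀0 hrel hx.1 hx.2)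
  have hfσ : ∀ x ∈ S, f (σ x) = ω₀ * (1 - exp x) := by
    intro x hx
    exact Function.invFunOn_eq (strip_mem hω₀0 hrel hx.1 hx.2)
  have hconv : Convex ℝ S := by
    have h3 : S = imCLM ⁻¹' (Ioo (θ₂ - Real.pi) (θ₁ + Real.pi)) := by
      ext x
      simp [hS, mem_Ioo]
    rw [h3]
    exact (convex_Ioo _ _).linear_preimage (imCLM : ℂ →L[ℝ] ℝ).toLinearMap
  have h0S : (0 : ℂ) ∈ S := by
    constructor
    · simp only [zero_im]; linarith
    · simp only [zero_im]; linarith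
  have hσ0 : σ 0 = 0 := by
    have h3 : ω₀ * (1 - exp 0) = f 0 := by rw [exp_zero, sub_self, mul_zero, hf0]
    simp only [hσ]
    rw [h3]
    exact hi.leftInvOn_invFunOn (by simp)
  have hcont : ContinuousOn (fun x => G (σ x) - x) S := by
    intro x hx
    apply ContinuousAt.continuousWithinAt
    apply ContinuousAt.sub _ continuousAt_id
    have h3 : ContinuousAt σ x := by
      have h4 : ContinuousAt (Function.invFunOn f (ball 0 1)) (ω₀ * (1 - exp x)) := by
        rw [← hfσ x hx]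
        exact continuousAt_invFunOn hd hi (hmem x hx)
      have h5 : ContinuousAt (fun y : ℂ => ω₀ * (1 - exp y)) x := by fun_prop
      exact ContinuousAt.comp (f := fun y : ℂ => ω₀ * (1 - exp y)) h4 h5
    have h6 : ContinuousAt G (σ x) := hGc.continuousAt (isOpen_ball.mem_nhds (hmem x hx))
    exact ContinuousAt.comp (f := σ) h6 h3
  have hk : ∀ x ∈ S, ∃ k : ℤ, G (σ x) - x = k * (2 * Real.pi * I) := by
    intro x hx
    have h3 : exp (G (σ x)) = exp x := by
      rw [hG _ (hmem x hx), hfσ x hx]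
      field_simp
      ring
    obtain ⟨k, hk⟩ := exp_eq_exp_iff_exists_int.mp h3
    exact ⟨k, by rw [hk]; ring⟩
  have := im_eq_zero_of_preconnected hconv.isPreconnected hcont hk h0S (by simp [hσ0, hG0]) ξ
    ⟨h1, h2⟩
  exact sub_eq_zero.mp this

lemma im_G_range (hd : DifferentiableOn ℂ f (ball 0 1)) (hi : InjOn f (ball 0 1)) (hf0 : f 0 = 0)
    (hω₀0 : ω₀ ≠ 0) (hrel : RelSector (f '' ball 0 1)ᶜ ω₀ θ₁ θ₂)
    (ht1 : -Real.pi < θ₁) (ht2 : θ₂ < Real.pi) (ht12 : θ₁ ≤ θ₂)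
    {G : ℂ → ℂ} (hGc : ContinuousOn G (ball 0 1))
    (hG : ∀ z ∈ ball (0 : ℂ) 1, exp (G z) = 1 - f z / ω₀) (hG0 : G 0 = 0) :
    ∀ z ∈ ball (0 : ℂ) 1, θ₁ - Real.pi ≤ (G z).im ∧ (G z).im ≤ θ₂ + Real.pi := by
  have hpi := Real.pi_pos
  have h0b : (0 : ℂ) ∈ ball (0 : ℂ) 1 := by simp
  have hpre : IsPreconnected (ball (0 : ℂ) 1) := (convex_ball _ _).isPreconnected
  have hcim : ContinuousOn (fun x => (G x).im) (ball 0 1) := continuous_im.comp_continuousOn hGc
  have key : ∀ z ∈ ball (0 : ℂ) 1, ∀ k : ℤ, θ₂ - Real.pi < (G z).im - 2 * Real.pi * k →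
      (G z).im - 2 * Real.pi * k < θ₁ + Real.pi → k = 0 := by
    intro z hz k h1 h2
    set ξ : ℂ := G z - k * (2 * Real.pi * I) with hξ
    have him : ξ.im = (G z).im - 2 * Real.pi * k := by
      rw [hξ]; simp; ring
    have hexp : exp ξ = 1 - f z / ω₀ := by
      rw [hξ, exp_sub, exp_int_mul_two_pi_mul_I, div_one, hG z hz]
    have h3 := G_strip hd hi hf0 hω₀0 hrel ht1 ht2 hGc hG hG0 (ξ := ξ) (by rw [him]; exact h1)
      (by rw [him]; exact h2)
    have h4 : ω₀ * (1 - exp ξ) = f z := by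
      rw [hexp]; field_simp; ring
    rw [h4, hi.leftInvOn_invFunOn hz, hξ] at h3
    have h5 : (k : ℂ) * (2 * Real.pi * I) = 0 := by linear_combination h3
    rcases mul_eq_zero.mp h5 with h6 | h6
    · exact_mod_cast h6
    · exfalso
      have : (2 * Real.pi * I : ℂ) ≠ 0 := two_pi_I_ne_zero
      exact this h6
  intro z hz
  constructor
  · by_contra hcon
    push Not at hcon
    obtain ⟨v, hv1, hv2⟩ := exists_between
      (max_lt hcon (by linarith : θ₂ - 3 * Real.pi < θ₁ - Real.pi))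
    have hv3 := (le_max_left _ _).trans_lt hv1
    have hv4 := (le_max_right _ _).trans_lt hv1
    have h3 : v ∈ Icc (G z).im (G 0).im := by
      rw [hG0]
      simp only [zero_im]
      constructor <;> linarith
    obtain ⟨x, hx, hx'⟩ := hpre.intermediate_value hz h0b hcim h3
    simp only at hx'
    have := key x hx (-1) (by rw [hx']; push_cast; linarith) (by rw [hx']; push_cast; linarith)
    omega
  · by_contra hcon
    push Not at hcon
    obtain ⟨v, hv1, hv2⟩ := exists_between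
      (lt_min hcon (by linarith : θ₂ + Real.pi < θ₁ + 3 * Real.pi))
    have hv3 := hv2.trans_le (min_le_left _ _)
    have hv4 := hv2.trans_le (min_le_right _ _)
    have h3 : v ∈ Icc (G 0).im (G z).im := by
      rw [hG0]
      simp only [zero_im]
      constructor <;> linarith
    obtain ⟨x, hx, hx'⟩ := hpre.intermediate_value h0b hz hcim h3
    simp only at hx'
    have := key x hx 1 (by rw [hx']; push_cast; linarith) (by rw [hx']; push_cast; linarith)
    omega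

end strip

section ell

/-- `2 log ((1 - z e^{-iφ}) / (1 + z))`. -/
noncomputable def ell (φ : ℝ) (z : ℂ) : ℂ :=
  2 * (log (1 - z * exp (-(φ : ℂ) * I)) - log (1 + z))

lemma one_add_mem_slitPlane {w : ℂ} (hw : w ∈ closedBall (0 : ℂ) 1) (hne : w ≠ -1) :
    1 + w ∈ slitPlane := by
  rw [mem_slitPlane_iff]
  left
  simp only [add_re, one_re]
  have h1 : ‖w‖ ≤ 1 := by simpa using hw
  have h2 : |w.re| ≤ ‖w‖ := abs_re_le_norm w
  have h3 : -1 ≤ w.re := by linarith [neg_abs_le w.re]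
  rcases h3.eq_or_lt with h | h
  · exfalso
    apply hne
    have h4 : w.re ^ 2 + w.im ^ 2 ≤ 1 := by
      have h5 : ‖w‖ ^ 2 ≤ 1 := by nlinarith [norm_nonneg w]
      rw [← normSq_eq_norm_sq, normSq_apply] at h5
      nlinarith
    have h5 : w.im = 0 := by
      have : w.im ^ 2 ≤ 0 := by nlinarith
      nlinarith [sq_nonneg w.im, pow_eq_zero_iff (two_ne_zero) (a := w.im) |>.mp
        (le_antisymm this (sq_nonneg _))]
    apply Complex.ext
    · simp; linarith
    · simp [h5]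
  · linarith

lemma one_sub_mem_slitPlane {φ : ℝ} {z : ℂ} (hz : z ∈ closedBall (0 : ℂ) 1)
    (hne : z ≠ exp ((φ : ℂ) * I)) : 1 - z * exp (-(φ : ℂ) * I) ∈ slitPlane := by
  have h1 : 1 - z * exp (-(φ : ℂ) * I) = 1 + (-(z * exp (-(φ : ℂ) * I))) := by ring
  rw [h1]
  apply one_add_mem_slitPlane
  · simp only [mem_closedBall, dist_zero_right, norm_neg, norm_mul]
    have h2 : ‖exp (-(φ : ℂ) * I)‖ = 1 := by
      have := norm_exp_ofReal_mul_I (-φ)
      simpa using this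
    rw [h2, mul_one]
    simpa using hz
  · intro h
    apply hne
    have h2 : z * exp (-(φ : ℂ) * I) = 1 := by linear_combination -h
    have h3 : exp (-(φ : ℂ) * I) * exp ((φ : ℂ) * I) = 1 := by
      rw [← exp_add]; simp
    calc z = z * (exp (-(φ : ℂ) * I) * exp ((φ : ℂ) * I)) := by rw [h3, mul_one]
      _ = (z * exp (-(φ : ℂ) * I)) * exp ((φ : ℂ) * I) := by ring
      _ = exp ((φ : ℂ) * I) := by rw [h2, one_mul]

lemma ell_zero (φ : ℝ) : ell φ 0 = 0 := by simp [ell]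

lemma ell_continuousOn (φ : ℝ) :
    ContinuousOn (ell φ) (closedBall 0 1 \ {-1, exp ((φ : ℂ) * I)}) := by
  intro z hz
  have h1 := hz.2
  simp only [mem_insert_iff, mem_singleton_iff, not_or] at h1
  unfold ell
  apply ContinuousAt.continuousWithinAt
  apply ContinuousAt.mul continuousAt_const
  apply ContinuousAt.sub
  · exact ContinuousAt.clog (f := fun z : ℂ => 1 - z * exp (-(φ : ℂ) * I)) (by fun_prop)
      (one_sub_mem_slitPlane hz.1 h1.2)
  · exact ContinuousAt.clog (f := fun z : ℂ => 1 + z) (by fun_prop)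
      (one_add_mem_slitPlane hz.1 h1.1)

lemma ne_of_ball {φ : ℝ} {z : ℂ} (hz : z ∈ ball (0 : ℂ) 1) : z ≠ -1 ∧ z ≠ exp ((φ : ℂ) * I) := by
  constructor
  · rintro rfl
    simp at hz
  · rintro rfl
    rw [mem_ball_zero_iff, norm_exp_ofReal_mul_I] at hz
    linarith

lemma ell_differentiableOn (φ : ℝ) : DifferentiableOn ℂ (ell φ) (ball 0 1) := by
  intro z hz
  have hne := ne_of_ball (φ := φ) hz
  have hzc := ball_subset_closedBall hz
  apply DifferentiableAt.differentiableWithinAt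
  unfold ell
  apply DifferentiableAt.const_mul
  apply DifferentiableAt.sub
  · exact DifferentiableAt.clog (f := fun z : ℂ => 1 - z * exp (-(φ : ℂ) * I)) (by fun_prop)
      (one_sub_mem_slitPlane hzc hne.2)
  · exact DifferentiableAt.clog (f := fun z : ℂ => 1 + z) (by fun_prop)
      (one_add_mem_slitPlane hzc hne.1)

lemma abs_ell_im_le (φ : ℝ) (z : ℂ) : |(ell φ z).im| ≤ 4 * Real.pi := by
  unfold ell
  have h1 := abs_arg_le_pi (1 - z * exp (-(φ : ℂ) * I))
  have h2 := abs_arg_le_pi (1 + z)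
  have h3 : (2 * (log (1 - z * exp (-(φ : ℂ) * I)) - log (1 + z))).im =
      2 * (arg (1 - z * exp (-(φ : ℂ) * I)) - arg (1 + z)) := by
    simp [log_im]
  rw [h3, abs_mul, abs_two]
  have h4 := abs_sub (arg (1 - z * exp (-(φ : ℂ) * I))) (arg (1 + z))
  linarith

lemma im_log_one_add_exp {t : ℝ} (ht : t ∈ Ioo (-Real.pi) Real.pi) :
    (log (1 + exp ((t : ℂ) * I))).im = t / 2 := by
  have hcos : 0 < Real.cos (t / 2) := by
    apply Real.cos_pos_of_mem_Ioo
    constructor <;> linarith [ht.1, ht.2]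
  have h1 : 1 + exp ((t : ℂ) * I) =
      exp (((Real.log (2 * Real.cos (t / 2)) : ℝ) : ℂ) + ((t / 2 : ℝ) : ℂ) * I) := by
    rw [exp_add, ← ofReal_exp, Real.exp_log (by positivity)]
    have h2 : exp ((t : ℂ) * I) = exp (((t / 2 : ℝ) : ℂ) * I) * exp (((t / 2 : ℝ) : ℂ) * I) := by
      rw [← exp_add]; congr 1; push_cast; ring
    have h3 : ((2 * Real.cos (t / 2) : ℝ) : ℂ) =
        exp (((t / 2 : ℝ) : ℂ) * I) + exp (-(((t / 2 : ℝ) : ℂ) * I)) := by
      push_cast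
      rw [Complex.cos]
      ring_nf
    rw [h3, h2, add_mul, ← exp_add (-(((t / 2 : ℝ) : ℂ) * I)), neg_add_cancel, exp_zero]
    ring
  rw [h1, log_exp]
  · simp
  · simp
    linarith [ht.1, Real.pi_pos]
  · simp
    linarith [ht.2, Real.pi_pos]

lemma im_log_one_sub_exp_pos {u : ℝ} (hu : u ∈ Ioo 0 (2 * Real.pi)) :
    (log (1 - exp ((u : ℂ) * I))).im = u / 2 - Real.pi / 2 := by
  have h : (1 : ℂ) - exp ((u : ℂ) * I) = 1 + exp (((u - Real.pi : ℝ) : ℂ) * I) := by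
    push_cast
    rw [sub_mul, exp_sub, exp_pi_mul_I]
    ring
  rw [h, im_log_one_add_exp ⟨by linarith [hu.1], by linarith [hu.2]⟩]
  ring

lemma im_log_one_sub_exp_neg {u : ℝ} (hu : u ∈ Ioo (-(2 * Real.pi)) 0) :
    (log (1 - exp ((u : ℂ) * I))).im = u / 2 + Real.pi / 2 := by
  have h : (1 : ℂ) - exp ((u : ℂ) * I) = 1 + exp (((u + Real.pi : ℝ) : ℂ) * I) := by
    push_cast
    rw [add_mul, exp_add, exp_pi_mul_I]
    ring
  rw [h, im_log_one_add_exp ⟨by linarith [hu.1], by linarith [hu.2]⟩]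
  ring

lemma ell_im_gt {φ t : ℝ} (hφ : φ ∈ Ioo (-Real.pi) Real.pi) (ht : t ∈ Ioo φ Real.pi) :
    (ell φ (exp ((t : ℂ) * I))).im = -φ - Real.pi := by
  unfold ell
  have h1 : exp ((t : ℂ) * I) * exp (-(φ : ℂ) * I) = exp (((t - φ : ℝ) : ℂ) * I) := by
    rw [← exp_add]; congr 1; push_cast; ring
  rw [h1]
  have h2 := im_log_one_sub_exp_pos (u := t - φ)
    ⟨by linarith [ht.1], by linarith [ht.2, hφ.1]⟩
  have h3 := im_log_one_add_exp (t := t) ⟨by linarith [ht.1, hφ.1], ht.2⟩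
  have h4 : ∀ x y : ℂ, (2 * (x - y)).im = 2 * (x.im - y.im) := by
    intro x y; simp
  rw [h4, h2, h3]
  ring

lemma ell_im_lt {φ t : ℝ} (hφ : φ ∈ Ioo (-Real.pi) Real.pi) (ht : t ∈ Ioo (-Real.pi) φ) :
    (ell φ (exp ((t : ℂ) * I))).im = -φ + Real.pi := by
  unfold ell
  have h1 : exp ((t : ℂ) * I) * exp (-(φ : ℂ) * I) = exp (((t - φ : ℝ) : ℂ) * I) := by
    rw [← exp_add]; congr 1; push_cast; ring
  rw [h1]
  have h2 := im_log_one_sub_exp_neg (u := t - φ)
    ⟨by linarith [ht.1, hφ.2], by linarith [ht.2]⟩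
  have h3 := im_log_one_add_exp (t := t) ⟨ht.1, by linarith [ht.2, hφ.2]⟩
  have h4 : ∀ x y : ℂ, (2 * (x - y)).im = 2 * (x.im - y.im) := by
    intro x y; simp
  rw [h4, h2, h3]
  ring

lemma exp_ell {φ : ℝ} {z : ℂ} (hz : z ∈ ball (0 : ℂ) 1) :
    exp (ell φ z) = ((1 - z * exp (-(φ : ℂ) * I)) / (1 + z)) ^ 2 := by
  have hne := ne_of_ball (φ := φ) hz
  have hzc := ball_subset_closedBall hz
  unfold ell
  have h1 : (2 : ℂ) * (log (1 - z * exp (-(φ : ℂ) * I)) - log (1 + z)) =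
      ((2 : ℕ) : ℂ) * (log (1 - z * exp (-(φ : ℂ) * I)) - log (1 + z)) := by norm_num
  rw [h1, exp_nat_mul, exp_sub, exp_log, exp_log]
  · exact slitPlane_ne_zero (one_add_mem_slitPlane hzc hne.1)
  · exact slitPlane_ne_zero (one_sub_mem_slitPlane hzc hne.2)

end ell

end Pool.Agent.Work.MP_2e7b1e_an
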