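import Mathlib
import Pool.Agent.Work.MP_2e7b1e_an.Defs
import Pool.Agent.Work.MP_2e7b1e_an.Upper
import Pool.Agent.Work.MP_2e7b1e_an.LogLift
import Pool.Agent.Work.MP_2e7b1e_an.UpperMain
import Pool.Agent.Work.MP_2e7b1e_an.UpperMain2

/-!
The upper bound for the tip argument, third part: the case analysis.
-/

set_option autoImplicit false

open Complex Metric Set Filter Topology

namespace Pool.Agent.Work.MP_2e7b1e_an

lemma exp_arg_of_sphere {z : ℂ} (hz : z ∈ sphere (0 : ℂ) 1) (hne : z ≠ -1) :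
    exp ((arg z : ℂ) * I) = z ∧ arg z ∈ Ioo (-Real.pi) Real.pi := by
  have h1 : ‖z‖ = 1 := by simpa using hz
  have h2 := norm_mul_exp_arg_mul_I z
  rw [h1] at h2
  simp only [ofReal_one, one_mul] at h2
  refine ⟨h2, neg_pi_lt_arg z, lt_of_le_of_ne (arg_le_pi z) ?_⟩
  intro h
  apply hne
  rw [← h2, h, exp_pi_mul_I]

/-- A continuous real function on an interval with values in two separated intervals stays in one
of them. -/
lemma stays {L : ℝ → ℝ} {S : Set ℝ} (hS : IsPreconnected S) (hL : ContinuousOn L S) {m M : ℝ}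
    (hmM : m < M) (h : ∀ t ∈ S, L t ≤ m ∨ M ≤ L t) :
    (∀ t ∈ S, L t ≤ m) ∨ (∀ t ∈ S, M ≤ L t) := by
  by_contra hcon
  push Not at hcon
  obtain ⟨⟨a, ha, ha'⟩, ⟨b, hb, hb'⟩⟩ := hcon
  have h1 : M ≤ L a := (h a ha).resolve_left (not_le.mpr ha')
  have h2 : L b ≤ m := (h b hb).resolve_right (not_le.mpr hb')
  obtain ⟨v, hv1, hv2⟩ := exists_between hmM
  obtain ⟨x, hx, hx'⟩ := hS.intermediate_value hb ha hL (⟨by linarith, by linarith⟩ :
    v ∈ Icc (L b) (L a))
  rcases h x hx with h3 | h3 <;> linarith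

theorem tip_bound {f : ℂ → ℂ} {ω₀ : ℂ} {φ θ₁ θ₂ : ℝ} (hS : ClassS f)
    (hω₀ : ω₀ ∈ (f '' ball 0 1)ᶜ) (hrel : RelSector (f '' ball 0 1)ᶜ ω₀ θ₁ θ₂)
    (ht1 : -Real.pi < θ₁) (ht2 : θ₂ < Real.pi) (ht12 : θ₁ ≤ θ₂)
    (hφ : φ ∈ Ioo (-Real.pi) Real.pi) (hT : TipAt f ω₀ φ) : -θ₂ ≤ φ ∧ φ ≤ -θ₁ := by
  have hpi := Real.pi_pos
  obtain ⟨h, hhc, hhb, hhs, hinf⟩ := exists_h hS hω₀ hrel hT
  obtain ⟨hd, hi, hf0, hf1⟩ := hS
  have hω₀0 : ω₀ ≠ 0 := by
    rintro rfl
    exact hω₀ ⟨0, by simp, hf0⟩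
  set e : ℂ := exp ((φ : ℂ) * I) with he
  have hes : e ∈ sphere (0 : ℂ) 1 := by
    rw [he, mem_sphere_zero_iff_norm, norm_exp_ofReal_mul_I]
  have hms : (-1 : ℂ) ∈ sphere (0 : ℂ) 1 := by simp
  set C : Set ℂ := closedBall 0 1 \ {-1, e} with hC
  have hball : ball (0 : ℂ) 1 ⊆ C := by
    intro z hz
    have := ne_of_ball (φ := φ) hz
    exact ⟨ball_subset_closedBall hz, by simp [this.1, this.2, he]⟩
  have h0C : (0 : ℂ) ∈ C := hball (by simp)
  have hCs : ∀ z ∈ C, z ∉ ball (0 : ℂ) 1 → z ∈ sphere (0 : ℂ) 1 ∧ z ≠ -1 ∧ z ≠ e := by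
    intro z hz hzb
    have h2 := hz.1
    have h3 := hz.2
    simp only [mem_insert_iff, mem_singleton_iff, not_or] at h3
    refine ⟨?_, h3.1, h3.2⟩
    simp only [mem_closedBall, mem_ball, mem_sphere, dist_zero_right] at hzb h2 ⊢
    linarith
  have hne : ∀ z ∈ C, h z ≠ 0 := by
    intro z hz
    by_cases hzb : z ∈ ball (0 : ℂ) 1
    · rw [hhb z hzb]
      intro h0
      apply hω₀
      refine ⟨z, hzb, ?_⟩
      field_simp at h0
      linear_combination -h0
    · obtain ⟨hzs, hz1, hz2⟩ := hCs z hz hzb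
      obtain ⟨r, hr, s, hs, hrs⟩ := hhs z hzs hz1 hz2
      rw [hrs]
      apply neg_ne_zero.mpr
      exact mul_ne_zero (by exact_mod_cast hr.ne') (exp_ne_zero _)
  have hh0 : h 0 = 1 := by
    rw [hhb 0 (by simp), hf0]; simp
  obtain ⟨G, hGc, hGe, hG0⟩ := exists_log_of_convex (convex_closedBall_diff hms hes) h0C hhc hne hh0
  have hGcb : ContinuousOn G (ball 0 1) := hGc.mono hball
  have hGeb : ∀ z ∈ ball (0 : ℂ) 1, exp (G z) = 1 - f z / ω₀ := by
    intro z hz
    rw [hGe z (hball hz), hhb z hz]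
  have hGd : DifferentiableOn ℂ G (ball 0 1) := by
    apply differentiableOn_of_exp hGcb hGeb
    exact (hd.div_const ω₀).const_sub 1
  have hrange := im_G_range hd hi hf0 hω₀0 hrel ht1 ht2 ht12 hGcb hGeb hG0
  -- range on the closed disc
  have hrangeC : ∀ z ∈ C, θ₁ - Real.pi ≤ (G z).im ∧ (G z).im ≤ θ₂ + Real.pi := by
    intro z hz
    have hcl : z ∈ closure (ball (0 : ℂ) 1) := by
      rw [closure_ball _ one_ne_zero]; exact hz.1
    have hnb : (𝓝[ball (0 : ℂ) 1] z).NeBot := mem_closure_iff_nhdsWithin_neBot.mp hcl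
    have hlim : Tendsto (fun w => (G w).im) (𝓝[ball (0 : ℂ) 1] z) (𝓝 (G z).im) :=
      (continuous_im.tendsto _).comp ((hGc z hz).mono_left (nhdsWithin_mono _ hball))
    constructor
    · apply ge_of_tendsto hlim
      filter_upwards [self_mem_nhdsWithin] with w hw
      exact (hrange w hw).1
    · apply le_of_tendsto hlim
      filter_upwards [self_mem_nhdsWithin] with w hw
      exact (hrange w hw).2
  -- classification on the circle
  have hclass : ∀ z ∈ sphere (0 : ℂ) 1, z ≠ -1 → z ≠ e →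
      ((θ₁ - Real.pi ≤ (G z).im ∧ (G z).im ≤ θ₂ - Real.pi) ∨
        (θ₁ + Real.pi ≤ (G z).im ∧ (G z).im ≤ θ₂ + Real.pi)) := by
    intro z hz hz1 hz2
    have hzC : z ∈ C := ⟨sphere_subset_closedBall hz, by simp [hz1, hz2]⟩
    obtain ⟨r, hr, s, hs, hrs⟩ := hhs z hz hz1 hz2
    have hexp : exp (G z) = exp (((Real.log r : ℝ) : ℂ) + ((s : ℂ) + Real.pi) * I) := by
      rw [hGe z hzC, hrs, exp_add, ← ofReal_exp, Real.exp_log hr, add_mul, exp_add, exp_pi_mul_I]
      ring
    obtain ⟨k, hk⟩ := exp_eq_exp_iff_exists_int.mp hexp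
    have him := congrArg Complex.im hk
    simp at him
    have hr := hrangeC z hzC
    have h1 : (k : ℝ) < 1 := by
      by_contra hcon
      push Not at hcon
      nlinarith [hs.1, hs.2]
    have h2 : (-2 : ℝ) < k := by
      by_contra hcon
      push Not at hcon
      nlinarith [hs.1, hs.2]
    have h3 : k < 1 := by exact_mod_cast h1
    have h4 : -2 < k := by exact_mod_cast h2
    have h5 : k = 0 ∨ k = -1 := by omega
    rcases h5 with h5 | h5
    · right
      rw [h5] at him
      simp at him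
      constructor <;> linarith [hs.1, hs.2]
    · left
      rw [h5] at him
      simp at him
      constructor <;> linarith [hs.1, hs.2]
  -- the boundary function on the two arcs
  set L : ℝ → ℝ := fun t => (G (exp ((t : ℂ) * I))).im with hL
  have htC : ∀ t ∈ Ioo (-Real.pi) Real.pi, t ≠ φ →
      exp ((t : ℂ) * I) ∈ sphere (0 : ℂ) 1 ∧ exp ((t : ℂ) * I) ≠ -1 ∧ exp ((t : ℂ) * I) ≠ e := by
    intro t ht htφ
    have harg : arg (exp ((t : ℂ) * I)) = t := by
      rw [arg_exp_mul_I]
      exact (toIocMod_eq_self (by positivity)).mpr ⟨ht.1, by linarith [ht.2]⟩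
    have harg' : arg (exp ((φ : ℂ) * I)) = φ := by
      rw [arg_exp_mul_I]
      exact (toIocMod_eq_self (by positivity)).mpr ⟨hφ.1, by linarith [hφ.2]⟩
    refine ⟨?_, ?_, ?_⟩
    · rw [mem_sphere_zero_iff_norm, norm_exp_ofReal_mul_I]
    · intro h1
      rw [h1, arg_neg_one] at harg
      linarith [ht.2]
    · intro h1
      rw [h1, he, harg'] at harg
      exact htφ harg.symm
  have hLc : ∀ S : Set ℝ, S ⊆ Ioo (-Real.pi) Real.pi → φ ∉ S → ContinuousOn L S := by
    intro S hS hφS
    rw [hL]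
    apply continuous_im.comp_continuousOn
    apply hGc.comp (by fun_prop)
    intro t ht
    have htφ : t ≠ φ := by
      rintro rfl
      exact hφS ht
    have := htC t (hS ht) htφ
    exact ⟨sphere_subset_closedBall this.1, by simp [this.2.1, this.2.2]⟩
  have hgap : θ₂ - Real.pi < θ₁ + Real.pi := by linarith
  have hS1 : Ioo (-Real.pi) φ ⊆ Ioo (-Real.pi) Real.pi := Ioo_subset_Ioo_right hφ.2.le
  have hS2 : Ioo φ Real.pi ⊆ Ioo (-Real.pi) Real.pi := Ioo_subset_Ioo_left hφ.1.le
  have hcl1 : ∀ t ∈ Ioo (-Real.pi) φ, L t ≤ θ₂ - Real.pi ∨ θ₁ + Real.pi ≤ L t := by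
    intro t ht
    have h1 := htC t (hS1 ht) (ne_of_lt ht.2)
    rcases hclass _ h1.1 h1.2.1 h1.2.2 with h2 | h2
    · exact Or.inl h2.2
    · exact Or.inr h2.1
  have hcl2 : ∀ t ∈ Ioo φ Real.pi, L t ≤ θ₂ - Real.pi ∨ θ₁ + Real.pi ≤ L t := by
    intro t ht
    have h1 := htC t (hS2 ht) (ne_of_gt ht.1)
    rcases hclass _ h1.1 h1.2.1 h1.2.2 with h2 | h2
    · exact Or.inl h2.2
    · exact Or.inr h2.1
  have hstay1 := stays isPreconnected_Ioo (hLc _ hS1 (by simp)) hgap hcl1
  have hstay2 := stays isPreconnected_Ioo (hLc _ hS2 (by simp)) hgap hcl2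
  -- every boundary point is on one of the two arcs
  have harcs : ∀ z ∈ sphere (0 : ℂ) 1, z ≠ -1 → z ≠ e →
      (∃ t ∈ Ioo (-Real.pi) φ, z = exp ((t : ℂ) * I)) ∨
        (∃ t ∈ Ioo φ Real.pi, z = exp ((t : ℂ) * I)) := by
    intro z hz hz1 hz2
    obtain ⟨h1, h2⟩ := exp_arg_of_sphere hz hz1
    rcases lt_trichotomy (arg z) φ with h3 | h3 | h3
    · exact Or.inl ⟨arg z, ⟨h2.1, h3⟩, h1.symm⟩
    · exfalso
      apply hz2
      rw [← h1, h3]
    · exact Or.inr ⟨arg z, ⟨h3, h2.2⟩, h1.symm⟩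
  have h0b : (0 : ℂ) ∈ ball (0 : ℂ) 1 := by simp
  rcases hstay1 with hA | hA <;> rcases hstay2 with hB | hB
  · -- both negative
    exfalso
    have := im_le_of_boundary hms hes hGc hGd (M := θ₂ + Real.pi) (B := θ₂ - Real.pi)
      (fun z hz => (hrange z hz).2)
      (by
        intro z hz hz1 hz2
        rcases harcs z hz hz1 hz2 with ⟨t, ht, rfl⟩ | ⟨t, ht, rfl⟩
        · exact hA t ht
        · exact hB t ht) 0 h0b
    rw [hG0] at this
    simp at this
    linarith
  · -- reversed orientation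
    exfalso
    set q : ℂ → ℂ := fun z => G z + ell φ z with hq
    have hqc : ContinuousOn q C := hGc.add (ell_continuousOn φ)
    have hqd : DifferentiableOn ℂ q (ball 0 1) := hGd.add (ell_differentiableOn φ)
    have hup : ∀ z ∈ ball (0 : ℂ) 1, (q z).im ≤ θ₂ - φ := by
      apply im_le_of_boundary hms hes hqc hqd (M := θ₂ + Real.pi + 4 * Real.pi)
      · intro z hz
        have h1 := (hrange z hz).2
        have h2 := (abs_le.mp (abs_ell_im_le φ z)).2
        simp only [hq, add_im]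
        linarith
      · intro z hz hz1 hz2
        rcases harcs z hz hz1 hz2 with ⟨t, ht, rfl⟩ | ⟨t, ht, rfl⟩
        · have h1 := hA t ht
          have h2 := ell_im_lt hφ ht
          simp only [hq, add_im]
          simp only [hL] at h1
          linarith
        · have h1 := htC t (hS2 ht) (ne_of_gt ht.1)
          have h2 := (hrangeC _ ⟨sphere_subset_closedBall h1.1, by simp [h1.2.1, h1.2.2]⟩).2
          have h3 := ell_im_gt hφ ht
          simp only [hq, add_im]
          linarith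
    have hlow : ∀ z ∈ ball (0 : ℂ) 1, θ₁ - φ ≤ (q z).im := by
      have hlow' : ∀ z ∈ ball (0 : ℂ) 1, ((fun z => -(q z)) z).im ≤ -(θ₁ - φ) := by
        apply im_le_of_boundary hms hes hqc.neg hqd.neg (M := -(θ₁ - Real.pi) + 4 * Real.pi)
        · intro z hz
          have h1 := (hrange z hz).1
          have h2 := (abs_le.mp (abs_ell_im_le φ z)).1
          simp only [hq, neg_im, add_im, Pi.neg_apply]
          linarith
        · intro z hz hz1 hz2
          rcases harcs z hz hz1 hz2 with ⟨t, ht, rfl⟩ | ⟨t, ht, rfl⟩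
          · have h1 := htC t (hS1 ht) (ne_of_lt ht.2)
            have h2 := (hrangeC _ ⟨sphere_subset_closedBall h1.1, by simp [h1.2.1, h1.2.2]⟩).1
            have h3 := ell_im_lt hφ ht
            simp only [hq, neg_im, add_im, Pi.neg_apply]
            linarith
          · have h1 := hB t ht
            have h2 := ell_im_gt hφ ht
            simp only [hq, neg_im, add_im, Pi.neg_apply]
            simp only [hL] at h1
            linarith
      intro z hz
      have := hlow' z hz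
      simp only [neg_im] at this
      linarith
    -- the square root has positive real part
    set m : ℝ := (θ₁ + θ₂) / 2 - φ with hm
    set P : ℂ → ℂ := fun z => exp ((q z - (m : ℂ) * I) / 2) with hP
    have hPd : DifferentiableOn ℂ (fun z => -(P z)) (ball 0 1) := by
      apply DifferentiableOn.neg
      apply DifferentiableOn.cexp
      exact (hqd.sub_const _).div_const _
    have hPre : ∀ z ∈ ball (0 : ℂ) 1, 0 ≤ (P z).re := by
      intro z hz
      rw [hP]
      simp only
      rw [exp_re]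
      apply mul_nonneg (Real.exp_pos _).le
      apply Real.cos_nonneg_of_mem_Icc
      have h1 : ((q z - (m : ℂ) * I) / 2).im = ((q z).im - m) / 2 := by
        simp
      rw [h1]
      have h2 := hup z hz
      have h3 := hlow z hz
      constructor
      · rw [hm]; linarith
      · rw [hm]; linarith
    have hP0 : ‖P 0‖ = 1 := by
      rw [hP]
      simp only [hq, hG0, ell_zero]
      rw [norm_exp]
      simp
    have hbound : ∀ z ∈ ball (0 : ℂ) 1, (1 - ‖z‖) * ‖P z‖ ≤ 4 := by
      intro z hz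
      have h1 := borelCaratheodory (M := 1) one_pos hPd (fun w hw => by
        simp only [mem_ofPred_eq, neg_re]
        linarith [hPre w hw]) one_pos hz
      have hz1 : ‖z‖ < 1 := by simpa using hz
      rw [norm_neg, norm_neg, hP0] at h1
      have h2 : 0 < 1 - ‖z‖ := by linarith
      have h3 : (1 - ‖z‖) * ‖P z‖ ≤ (1 - ‖z‖) * (2 * 1 * ‖z‖ / (1 - ‖z‖) +
        1 * (1 + ‖z‖) / (1 - ‖z‖)) := mul_le_mul_of_nonneg_left h1 h2.le
      have h4 : (1 - ‖z‖) * (2 * 1 * ‖z‖ / (1 - ‖z‖) + 1 * (1 + ‖z‖) / (1 - ‖z‖)) =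
          2 * ‖z‖ + (1 + ‖z‖) := by
        field_simp
      linarith
    -- the square of the norm of `P`
    have hPsq : ∀ z ∈ ball (0 : ℂ) 1, ‖P z‖ ^ 2 =
        ‖1 - f z / ω₀‖ * (‖1 - z * exp (-(φ : ℂ) * I)‖ / ‖1 + z‖) ^ 2 := by
      intro z hz
      have h1 : P z ^ 2 = exp (G z) * exp (ell φ z) * exp (-((m : ℂ) * I)) := by
        rw [hP]
        simp only
        rw [← exp_nat_mul, ← exp_add, ← exp_add]
        congr 1
        simp only [hq]
        push_cast
        ring
      rw [← norm_pow, h1, norm_mul, norm_mul, hGeb z hz, exp_ell hz, norm_pow, norm_div]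
      have h2 : ‖exp (-((m : ℂ) * I))‖ = 1 := by
        rw [norm_exp]; simp
      rw [h2, mul_one]
    -- take `z = -r`, `r → 1`
    have hrad : Tendsto (fun r : ℝ => (-(r : ℂ))) (𝓝[<] 1) (𝓝[ball 0 1] (-1)) := by
      apply tendsto_nhdsWithin_of_tendsto_nhds_of_eventually_within
      · have : Tendsto (fun r : ℝ => (-(r : ℂ))) (𝓝 1) (𝓝 (-((1 : ℝ) : ℂ))) :=
          (continuous_ofReal.neg).tendsto 1
        rw [ofReal_one] at this
        exact this.mono_left nhdsWithin_le_nhds
      · have h1 : ∀ᶠ r : ℝ in 𝓝[<] 1, 0 < r :=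
          mem_nhdsWithin_of_mem_nhds (lt_mem_nhds one_pos)
        filter_upwards [h1, self_mem_nhdsWithin] with r hr hr'
        have hr1 : r < 1 := hr'
        simp only [mem_ball, dist_zero_right, norm_neg, norm_real, Real.norm_eq_abs]
        rw [abs_of_pos hr]
        exact hr1
    have hf_lim : Tendsto (fun r : ℝ => ‖f (-(r : ℂ))‖) (𝓝[<] 1) atTop := hinf.comp hrad
    have hh_lim : Tendsto (fun r : ℝ => ‖f (-(r : ℂ))‖ * ‖ω₀‖⁻¹ + (-1)) (𝓝[<] 1) atTop := by
      apply tendsto_atTop_add_const_right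
      exact hf_lim.atTop_mul_const (inv_pos.mpr (norm_pos_iff.mpr hω₀0))
    set κ : ℝ := ‖1 + exp (-(φ : ℂ) * I)‖ with hκ
    have hκpos : 0 < κ := by
      rw [hκ, norm_pos_iff]
      intro h1
      have h2 : exp ((φ : ℂ) * I) = -1 := by
        have h3 : exp (-(φ : ℂ) * I) * exp ((φ : ℂ) * I) = 1 := by
          rw [← exp_add]; simp
        have h4 : exp (-(φ : ℂ) * I) = -1 := by linear_combination h1
        rw [h4] at h3
        linear_combination -h3
      have h5 : arg (exp ((φ : ℂ) * I)) = φ := by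
        rw [arg_exp_mul_I]
        exact (toIocMod_eq_self (by positivity)).mpr ⟨hφ.1, by linarith [hφ.2]⟩
      rw [h2, arg_neg_one] at h5
      linarith [hφ.2]
    have hκ_lim : Tendsto (fun r : ℝ => ‖1 - (-(r : ℂ)) * exp (-(φ : ℂ) * I)‖) (𝓝[<] 1) (𝓝 κ) := by
      have hcont : Continuous (fun r : ℝ => ‖1 - (-(r : ℂ)) * exp (-(φ : ℂ) * I)‖) := by fun_prop
      have h1 := hcont.tendsto 1
      have h2 : ‖1 - (-((1 : ℝ) : ℂ)) * exp (-(φ : ℂ) * I)‖ = κ := by
        rw [hκ]; congr 1; push_cast; ring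
      rw [h2] at h1
      exact h1.mono_left nhdsWithin_le_nhds
    have hprod : Tendsto (fun r : ℝ => (‖f (-(r : ℂ))‖ * ‖ω₀‖⁻¹ + (-1)) *
        ‖1 - (-(r : ℂ)) * exp (-(φ : ℂ) * I)‖ ^ 2) (𝓝[<] 1) atTop :=
      hh_lim.atTop_mul_pos (by positivity : 0 < κ ^ 2) (hκ_lim.pow 2)
    have hev := hprod.eventually_gt_atTop 16
    have h1 : ∀ᶠ r : ℝ in 𝓝[<] 1, 0 < r :=
      mem_nhdsWithin_of_mem_nhds (lt_mem_nhds one_pos)
    obtain ⟨r, hr16, hr0, hr1⟩ := (hev.and (h1.and self_mem_nhdsWithin)).exists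
    have hr1' : r < 1 := hr1
    have hzr : (-(r : ℂ)) ∈ ball (0 : ℂ) 1 := by
      simp only [mem_ball, dist_zero_right, norm_neg, norm_real, Real.norm_eq_abs]
      rw [abs_of_pos hr0]
      exact hr1'
    have h2 := hbound _ hzr
    have h3 := hPsq _ hzr
    have hnr : ‖(-(r : ℂ))‖ = r := by
      simp [abs_of_pos hr0]
    have hn1 : ‖1 + (-(r : ℂ))‖ = 1 - r := by
      have : (1 : ℂ) + (-(r : ℂ)) = ((1 - r : ℝ) : ℂ) := by push_cast; ring
      rw [this, norm_real, Real.norm_eq_abs, abs_of_pos (by linarith)]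
    rw [hnr] at h2
    rw [hn1] at h3
    have h4 : ((1 - r) * ‖P (-(r : ℂ))‖) ^ 2 ≤ 16 := by
      have h5 : 0 ≤ (1 - r) * ‖P (-(r : ℂ))‖ := mul_nonneg (by linarith) (norm_nonneg _)
      nlinarith
    rw [mul_pow, h3] at h4
    have h5 : (1 - r) ^ 2 * (‖1 - f (-(r : ℂ)) / ω₀‖ *
        (‖1 - -(r : ℂ) * exp (-(φ : ℂ) * I)‖ / (1 - r)) ^ 2) =
        ‖1 - f (-(r : ℂ)) / ω₀‖ * ‖1 - -(r : ℂ) * exp (-(φ : ℂ) * I)‖ ^ 2 := by
      have : (1 - r) ≠ 0 := by linarith
      field_simp
    rw [h5] at h4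
    have h6 : ‖f (-(r : ℂ))‖ * ‖ω₀‖⁻¹ + (-1) ≤ ‖1 - f (-(r : ℂ)) / ω₀‖ := by
      have h7 := norm_sub_norm_le (f (-(r : ℂ)) / ω₀) 1
      rw [norm_sub_rev, norm_div, norm_one, div_eq_mul_inv] at h7
      linarith
    have h7 := mul_le_mul_of_nonneg_right h6
      (sq_nonneg ‖1 - -(r : ℂ) * exp (-(φ : ℂ) * I)‖)
    linarith
  · -- correct orientation
    set q : ℂ → ℂ := fun z => G z - ell φ z with hq
    have hqc : ContinuousOn q C := hGc.sub (ell_continuousOn φ)
    have hqd : DifferentiableOn ℂ q (ball 0 1) := hGd.sub (ell_differentiableOn φ)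
    constructor
    · have := im_le_of_boundary hms hes hqc hqd (M := θ₂ + Real.pi + 4 * Real.pi)
        (B := θ₂ + φ)
        (by
          intro z hz
          have h1 := (hrange z hz).2
          have h2 := (abs_le.mp (abs_ell_im_le φ z)).1
          simp only [hq, sub_im]
          linarith)
        (by
          intro z hz hz1 hz2
          rcases harcs z hz hz1 hz2 with ⟨t, ht, rfl⟩ | ⟨t, ht, rfl⟩
          · have h1 := htC t (hS1 ht) (ne_of_lt ht.2)
            have h2 := (hrangeC _ ⟨sphere_subset_closedBall h1.1, by simp [h1.2.1, h1.2.2]⟩).2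
            have h3 := ell_im_lt hφ ht
            simp only [hq, sub_im]
            linarith
          · have h1 := hB t ht
            have h2 := ell_im_gt hφ ht
            simp only [hq, sub_im]
            simp only [hL] at h1
            linarith) 0 h0b
      simp only [hq, hG0, ell_zero, sub_zero, zero_im] at this
      linarith
    · have := im_le_of_boundary hms hes hqc.neg hqd.neg (M := -(θ₁ - Real.pi) + 4 * Real.pi)
        (B := -(θ₁ + φ))
        (by
          intro z hz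
          have h1 := (hrange z hz).1
          have h2 := (abs_le.mp (abs_ell_im_le φ z)).2
          simp only [hq, neg_im, sub_im, Pi.neg_apply]
          linarith)
        (by
          intro z hz hz1 hz2
          rcases harcs z hz hz1 hz2 with ⟨t, ht, rfl⟩ | ⟨t, ht, rfl⟩
          · have h1 := hA t ht
            have h2 := ell_im_lt hφ ht
            simp only [hq, neg_im, sub_im, Pi.neg_apply]
            simp only [hL] at h1
            linarith
          · have h1 := htC t (hS2 ht) (ne_of_gt ht.1)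
            have h2 := (hrangeC _ ⟨sphere_subset_closedBall h1.1, by simp [h1.2.1, h1.2.2]⟩).1
            have h3 := ell_im_gt hφ ht
            simp only [hq, neg_im, sub_im, Pi.neg_apply]
            linarith) 0 h0b
      simp only [hq, Pi.neg_apply, hG0, ell_zero, sub_zero, neg_zero, zero_im] at this
      linarith
  · -- both positive
    exfalso
    have := im_le_of_boundary hms hes hGc.neg hGd.neg (M := -(θ₁ - Real.pi))
      (B := -(θ₁ + Real.pi))
      (fun z hz => by
        simp only [Pi.neg_apply, neg_im]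
        linarith [(hrange z hz).1])
      (by
        intro z hz hz1 hz2
        simp only [Pi.neg_apply, neg_im]
        rcases harcs z hz hz1 hz2 with ⟨t, ht, rfl⟩ | ⟨t, ht, rfl⟩
        · have := hA t ht
          simp only [hL] at this
          linarith
        · have := hB t ht
          simp only [hL] at this
          linarith) 0 h0b
    simp only [Pi.neg_apply, hG0, neg_zero, zero_im] at this
    linarith

end Pool.Agent.Work.MP_2e7b1e_an
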